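import Mathlib

set_option autoImplicit false

/-!
# Counting the independent sets of a template

The template is a disjoint union of `N` copies of the blow-up of a finite graph `R` in which every
vertex is replaced by `h` vertices.  We bound the number of its independent sets of size `k`.
-/

namespace Pool.Agent.H31.LB

open Finset Classical

variable {P : Type} [Fintype P]

/-- the set `J` of vertices of `R` is independent -/
def Ind (R : SimpleGraph P) (J : Finset P) : Prop := ∀ p ∈ J, ∀ p' ∈ J, ¬ R.Adj p p'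

/-- the independence polynomial of `R` -/
noncomputable def Z (R : SimpleGraph P) (w : ℝ) : ℝ := ∑ J ∈ univ.filter (Ind R), w ^ J.card

theorem one_le_Z (R : SimpleGraph P) (w : ℝ) (hw : 0 ≤ w) : 1 ≤ Z R w := by
  unfold Z
  have h : (∅ : Finset P) ∈ univ.filter (Ind R) := by
    rw [mem_filter]
    exact ⟨mem_univ _, fun p hp => absurd hp (notMem_empty p)⟩
  calc (1 : ℝ) = w ^ (∅ : Finset P).card := by rw [card_empty, pow_zero]
    _ ≤ _ := single_le_sum (f := fun J : Finset P => w ^ J.card) (fun J _ => pow_nonneg hw _) h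

theorem Z_mono (R : SimpleGraph P) (w w' : ℝ) (hw : 0 ≤ w) (h : w ≤ w') : Z R w ≤ Z R w' :=
  sum_le_sum fun _ _ => pow_le_pow_left₀ hw h _

/-- adjacency in the template -/
def TAdj {N h : ℕ} (R : SimpleGraph P) (u v : Fin N × (P × Fin h)) : Prop :=
  u.1 = v.1 ∧ R.Adj u.2.1 v.2.1

/-- independence in the template -/
def TInd {N h : ℕ} (R : SimpleGraph P) (I : Finset (Fin N × (P × Fin h))) : Prop :=
  ∀ u ∈ I, ∀ v ∈ I, ¬ TAdj R u v

/-- the fibre of a set of pairs -/
noncomputable def fib {α β : Type} [Fintype β] (I : Finset (α × β)) (a : α) : Finset β :=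
  univ.filter (fun b => (a, b) ∈ I)

theorem mem_fib {α β : Type} [Fintype β] (I : Finset (α × β)) (a : α) (b : β) :
    b ∈ fib I a ↔ (a, b) ∈ I := by
  unfold fib
  rw [mem_filter]
  simp

theorem fib_inj {α β : Type} [Fintype β] : Function.Injective (fun I : Finset (α × β) => fib I) := by
  intro I I' h
  ext ⟨a, b⟩
  rw [← mem_fib, ← mem_fib]
  have := congrFun h a
  simp only at this
  rw [this]

theorem card_fib {α β : Type} [Fintype α] [Fintype β] (I : Finset (α × β)) :
    I.card = ∑ a, (fib I a).card := by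
  rw [card_eq_sum_card_fiberwise (f := fun x : α × β => x.1) (t := univ) (fun _ _ => mem_univ _)]
  refine sum_congr rfl fun a _ => ?_
  refine card_bij (fun x _ => x.2) ?_ ?_ ?_
  · rintro ⟨a', b⟩ hx
    rw [mem_filter] at hx
    rw [mem_fib]
    obtain ⟨h1, h2⟩ := hx
    simp only at h2
    subst h2
    exact h1
  · rintro ⟨a1, b1⟩ h1 ⟨a2, b2⟩ h2 hb
    rw [mem_filter] at h1 h2
    obtain ⟨-, h1⟩ := h1
    obtain ⟨-, h2⟩ := h2
    simp only at h1 h2 hb
    rw [h1, h2, hb]
  · intro b hb
    rw [mem_fib] at hb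
    exact ⟨(a, b), by rw [mem_filter]; exact ⟨hb, rfl⟩, rfl⟩

theorem sum_fib_le {α β : Type} [Fintype α] [Fintype β] (t : ℝ) (ht : 0 ≤ t)
    (S : Finset (Finset (α × β))) (T : Finset (α → Finset β)) (h : ∀ I ∈ S, fib I ∈ T) :
    ∑ I ∈ S, t ^ I.card ≤ ∑ g ∈ T, ∏ a, t ^ (g a).card := by
  calc ∑ I ∈ S, t ^ I.card = ∑ I ∈ S, ∏ a, t ^ (fib I a).card := by
        refine sum_congr rfl fun I _ => ?_
        rw [prod_pow_eq_pow_sum, ← card_fib]
    _ = ∑ g ∈ S.image (fun I => fib I), ∏ a, t ^ (g a).card := by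
        rw [sum_image fun I _ I' _ hII => fib_inj hII]
    _ ≤ ∑ g ∈ T, ∏ a, t ^ (g a).card := by
        refine sum_le_sum_of_subset_of_nonneg ?_ fun g _ _ => prod_nonneg fun a _ => pow_nonneg ht _
        intro g hg
        rw [mem_image] at hg
        obtain ⟨I, hI, rfl⟩ := hg
        exact h I hI

/-- the total weight of the subsets of `Fin h` -/
theorem sum_pow_card (h : ℕ) (t : ℝ) : ∑ s : Finset (Fin h), t ^ s.card = (1 + t) ^ h := by
  have := Fintype.sum_pow_mul_eq_add_pow (Fin h) t (1 : ℝ)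
  simp only [one_pow, mul_one, Fintype.card_fin] at this
  rw [this, add_comm]

theorem sum_erase_pow_card (h : ℕ) (t : ℝ) :
    ∑ s ∈ (univ : Finset (Finset (Fin h))).erase ∅, t ^ s.card = (1 + t) ^ h - 1 := by
  rw [← sum_pow_card, ← add_sum_erase univ (fun s : Finset (Fin h) => t ^ s.card) (mem_univ ∅)]
  simp

/-- the independent sets inside one block -/
theorem sum_block_le (R : SimpleGraph P) (h : ℕ) (t : ℝ) (ht : 0 ≤ t) :
    ∑ I ∈ univ.filter (fun I : Finset (P × Fin h) => ∀ u ∈ I, ∀ v ∈ I, ¬ R.Adj u.1 v.1),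
      t ^ I.card ≤ Z R ((1 + t) ^ h - 1) := by
  set T : Finset (P → Finset (Fin h)) :=
    univ.filter (fun g => Ind R (univ.filter (fun p => g p ≠ ∅))) with hT
  refine (sum_fib_le t ht _ T ?_).trans ?_
  · intro I hI
    rw [mem_filter] at hI
    rw [hT, mem_filter]
    refine ⟨mem_univ _, ?_⟩
    intro p hp p' hp'
    rw [mem_filter] at hp hp'
    obtain ⟨b, hb⟩ := nonempty_iff_ne_empty.2 hp.2
    obtain ⟨b', hb'⟩ := nonempty_iff_ne_empty.2 hp'.2
    rw [mem_fib] at hb hb'
    exact hI.2 _ hb _ hb'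
  · rw [← sum_fiberwise_of_maps_to (s := T) (t := univ.filter (Ind R))
      (g := fun g => univ.filter (fun p => g p ≠ ∅)) (fun g hg => by
        rw [hT, mem_filter] at hg
        rw [mem_filter]
        exact ⟨mem_univ _, hg.2⟩)]
    unfold Z
    refine sum_le_sum fun J hJ => ?_
    calc ∑ g ∈ T.filter (fun g => univ.filter (fun p => g p ≠ ∅) = J), ∏ p, t ^ (g p).card
        ≤ ∑ g ∈ Fintype.piFinset (fun p : P => if p ∈ J then
            (univ : Finset (Finset (Fin h))).erase ∅ else {∅}), ∏ p, t ^ (g p).card := by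
          refine sum_le_sum_of_subset_of_nonneg ?_ fun g _ _ =>
            prod_nonneg fun a _ => pow_nonneg ht _
          intro g hg
          rw [mem_filter] at hg
          rw [Fintype.mem_piFinset]
          intro p
          by_cases hp : p ∈ J
          · rw [if_pos hp, mem_erase]
            rw [← hg.2, mem_filter] at hp
            exact ⟨hp.2, mem_univ _⟩
          · rw [if_neg hp, mem_singleton]
            rw [← hg.2, mem_filter] at hp
            by_contra hne
            exact hp ⟨mem_univ _, hne⟩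
      _ = ∏ p : P, ∑ s ∈ (if p ∈ J then
            (univ : Finset (Finset (Fin h))).erase ∅ else {∅}), t ^ s.card := by
          rw [prod_univ_sum]
      _ = ∏ p : P, (if p ∈ J then ((1 + t) ^ h - 1) else 1) := by
          refine prod_congr rfl fun p _ => ?_
          by_cases hp : p ∈ J
          · rw [if_pos hp, if_pos hp, sum_erase_pow_card]
          · rw [if_neg hp, if_neg hp, sum_singleton, card_empty, pow_zero]
      _ = ((1 + t) ^ h - 1) ^ J.card := by
          rw [prod_ite_mem, univ_inter, prod_const]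

/-- the independent sets of the template -/
theorem sum_template_le (R : SimpleGraph P) (N h : ℕ) (t : ℝ) (ht : 0 ≤ t) :
    ∑ I ∈ univ.filter (fun I : Finset (Fin N × (P × Fin h)) => TInd R I), t ^ I.card ≤
      Z R ((1 + t) ^ h - 1) ^ N := by
  refine (sum_fib_le t ht _ (Fintype.piFinset (fun _ : Fin N =>
    univ.filter (fun I : Finset (P × Fin h) => ∀ u ∈ I, ∀ v ∈ I, ¬ R.Adj u.1 v.1))) ?_).trans ?_
  · intro I hI
    rw [mem_filter] at hI
    rw [Fintype.mem_piFinset]
    intro b
    rw [mem_filter]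
    refine ⟨mem_univ _, ?_⟩
    intro u hu v hv huv
    rw [mem_fib] at hu hv
    exact hI.2 _ hu _ hv ⟨rfl, huv⟩
  · rw [← prod_univ_sum (fun _ : Fin N => univ.filter (fun I : Finset (P × Fin h) =>
      ∀ u ∈ I, ∀ v ∈ I, ¬ R.Adj u.1 v.1)) (fun _ s => t ^ s.card), prod_const, card_univ,
      Fintype.card_fin]
    exact pow_le_pow_left₀ (sum_nonneg fun s _ => pow_nonneg ht _) (sum_block_le R h t ht) _

/-- the independent sets of the template of size `k` -/
noncomputable def JJ (R : SimpleGraph P) (N h k : ℕ) : Finset (Finset (Fin N × (P × Fin h))) :=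
  (powersetCard k univ).filter (fun I => TInd R I)

theorem card_JJ_le (R : SimpleGraph P) (N h k : ℕ) (t : ℝ) (ht : 0 ≤ t) :
    ((JJ R N h k).card : ℝ) * t ^ k ≤ Z R ((1 + t) ^ h - 1) ^ N := by
  refine le_trans ?_ (sum_template_le R N h t ht)
  calc ((JJ R N h k).card : ℝ) * t ^ k = ∑ I ∈ JJ R N h k, t ^ I.card := by
        rw [← nsmul_eq_mul, ← sum_const]
        refine sum_congr rfl fun I hI => ?_
        unfold JJ at hI
        rw [mem_filter, mem_powersetCard] at hI
        rw [hI.1.2]
    _ ≤ _ := by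
        refine sum_le_sum_of_subset_of_nonneg ?_ fun I _ _ => pow_nonneg ht _
        intro I hI
        unfold JJ at hI
        rw [mem_filter] at hI
        rw [mem_filter]
        exact ⟨mem_univ _, hI.2⟩

theorem card_JJ_le' (R : SimpleGraph P) (N h k : ℕ) (hh : 0 < h) (y : ℝ) (hy : 0 ≤ y) :
    ((JJ R N h k).card : ℝ) * (y / h) ^ k ≤ Z R (Real.exp y - 1) ^ N := by
  have hh' : (0 : ℝ) < h := by exact_mod_cast hh
  have ht : 0 ≤ y / h := div_nonneg hy hh'.le
  refine (card_JJ_le R N h k (y / h) ht).trans ?_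
  have h1 : (1 : ℝ) ≤ (1 + y / h) ^ h := one_le_pow₀ (by linarith)
  refine pow_le_pow_left₀ (le_trans zero_le_one (one_le_Z _ _ (by linarith))) (Z_mono _ _ _
    (by linarith) ?_) _
  have h2 : (1 + y / h) ^ h ≤ Real.exp y := by
    calc (1 + y / h) ^ h ≤ (Real.exp (y / h)) ^ h :=
          pow_le_pow_left₀ (by linarith) (by rw [add_comm]; exact Real.add_one_le_exp _) _
      _ = Real.exp y := by
          rw [← Real.exp_nat_mul]
          congr 1
          field_simp
  linarith

end Pool.Agent.H31.LB
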