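import Mathlib

set_option autoImplicit false

/-!
# Counting permutations

* the number of permutations that map a given `k`-set into a given family of `k`-sets;
* the number of permutations that map a given set onto few blocks.
-/

namespace Pool.Agent.H31.LB

open Finset Classical

variable {V : Type} [Fintype V] [DecidableEq V]

/-- two sets of the same size are related by a permutation -/
theorem exists_perm_map (I I' : Finset V) (h : I.card = I'.card) :
    ∃ τ : Equiv.Perm V, I.map τ.toEmbedding = I' := by
  have e : {x // x ∈ I} ≃ {x // x ∈ I'} := Fintype.equivOfCardEq (by simpa using h)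
  refine ⟨e.extendSubtype, ?_⟩
  have h1 : I.map e.extendSubtype.toEmbedding ⊆ I' := by
    intro x hx
    rw [mem_map] at hx
    obtain ⟨y, hy, rfl⟩ := hx
    exact e.extendSubtype_mem y hy
  exact eq_of_subset_of_card_le h1 (by rw [card_map, h])

/-- permutations that map the `k`-set `I` into the family `𝒥` -/
theorem card_perm_mem (𝒥 : Finset (Finset V)) (k : ℕ) (h𝒥 : ∀ I ∈ 𝒥, I.card = k)
    (I : Finset V) (hI : I.card = k) :
    (Fintype.card V).choose k *
      (univ.filter (fun σ : Equiv.Perm V => I.map σ.toEmbedding ∈ 𝒥)).card =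
      (Fintype.card V).factorial * 𝒥.card := by
  have h1 : ∀ I' ∈ powersetCard k (univ : Finset V),
      (univ.filter (fun σ : Equiv.Perm V => I'.map σ.toEmbedding ∈ 𝒥)).card =
      (univ.filter (fun σ : Equiv.Perm V => I.map σ.toEmbedding ∈ 𝒥)).card := by
    intro I' hI'
    rw [mem_powersetCard] at hI'
    obtain ⟨τ, hτ⟩ := exists_perm_map I I' (hI.trans hI'.2.symm)
    refine card_bij (fun σ _ => σ * τ) ?_ ?_ ?_
    · intro σ hσ
      rw [mem_filter] at hσ ⊢
      refine ⟨mem_univ _, ?_⟩
      have : I.map (σ * τ).toEmbedding = I'.map σ.toEmbedding := by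
        rw [← hτ, map_map]
        rfl
      rw [this]
      exact hσ.2
    · intro σ _ σ' _ hσ
      exact mul_right_cancel hσ
    · intro σ hσ
      rw [mem_filter] at hσ
      refine ⟨σ * τ⁻¹, ?_, by simp⟩
      rw [mem_filter]
      refine ⟨mem_univ _, ?_⟩
      have : I'.map (σ * τ⁻¹).toEmbedding = I.map σ.toEmbedding := by
        rw [← hτ, map_map]
        congr 1
        ext x
        simp
      rw [this]
      exact hσ.2
  have h2 : ∑ I' ∈ powersetCard k (univ : Finset V),
      (univ.filter (fun σ : Equiv.Perm V => I'.map σ.toEmbedding ∈ 𝒥)).card =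
      (Fintype.card V).choose k *
      (univ.filter (fun σ : Equiv.Perm V => I.map σ.toEmbedding ∈ 𝒥)).card := by
    rw [sum_congr rfl h1, sum_const, card_powersetCard, card_univ, smul_eq_mul]
  rw [← h2]
  have h3 : ∀ σ : Equiv.Perm V,
      ((powersetCard k (univ : Finset V)).filter (fun I' => I'.map σ.toEmbedding ∈ 𝒥)).card =
      𝒥.card := by
    intro σ
    refine card_bij (fun I' _ => I'.map σ.toEmbedding) ?_ ?_ ?_
    · intro I' hI'
      exact (mem_filter.1 hI').2
    · intro I' _ I'' _ h
      exact map_injective _ h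
    · intro I'' hI''
      refine ⟨I''.map σ.symm.toEmbedding, ?_, ?_⟩
      · rw [mem_filter, mem_powersetCard]
        refine ⟨⟨subset_univ _, by rw [card_map]; exact h𝒥 _ hI''⟩, ?_⟩
        rw [map_map]
        have : I''.map (σ.symm.toEmbedding.trans σ.toEmbedding) = I'' := by
          ext x
          simp
        rw [this]
        exact hI''
      · rw [map_map]
        ext x
        simp
  calc ∑ I' ∈ powersetCard k (univ : Finset V),
        (univ.filter (fun σ : Equiv.Perm V => I'.map σ.toEmbedding ∈ 𝒥)).card
      = ∑ σ : Equiv.Perm V,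
        ((powersetCard k (univ : Finset V)).filter (fun I' => I'.map σ.toEmbedding ∈ 𝒥)).card := by
        simp only [card_filter]
        rw [sum_comm]
    _ = _ := by
        rw [sum_congr rfl (fun σ _ => h3 σ), sum_const, card_univ, smul_eq_mul, Fintype.card_perm]

/-- the number of permutations with prescribed values on `s` points -/
theorem card_perm_fix (s : ℕ) (e g : Fin s → V) (he : Function.Injective e) :
    (univ.filter (fun σ : Equiv.Perm V => ∀ a, σ (e a) = g a)).card ≤
      (Fintype.card V - s).factorial := by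
  by_cases hne : (univ.filter (fun σ : Equiv.Perm V => ∀ a, σ (e a) = g a)).Nonempty
  · obtain ⟨σ₀, hσ₀⟩ := hne
    rw [mem_filter] at hσ₀
    have h1 : Fintype.card {x : V // x ∉ Set.range e} = Fintype.card V - s := by
      rw [Fintype.card_subtype_compl]
      congr 1
      have h0 := Set.card_range_of_injective he
      rw [Fintype.card_fin] at h0
      exact (Fintype.card_congr (Equiv.refl _)).trans h0
    have h2 : Fintype.card {f : Equiv.Perm V // ∀ a, ¬ a ∉ Set.range e → f a = a} =
        (Fintype.card V - s).factorial := by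
      rw [← Fintype.card_congr (Equiv.Perm.subtypeEquivSubtypePerm (fun x : V => x ∉ Set.range e)),
        Fintype.card_perm, h1]
    rw [← h2, Fintype.card_subtype]
    refine card_le_card_of_injOn (fun σ => σ₀⁻¹ * σ) ?_ ?_
    · intro σ hσ
      have hσ' := (mem_filter.1 (mem_coe.1 hσ)).2
      refine mem_coe.2 (mem_filter.2 ⟨mem_univ _, ?_⟩)
      intro a ha
      rw [not_not] at ha
      obtain ⟨b, rfl⟩ := ha
      rw [Equiv.Perm.mul_apply, hσ' b, ← hσ₀.2 b]
      exact σ₀.symm_apply_apply (e b)
    · intro σ _ σ' _ h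
      exact mul_left_cancel h
  · rw [not_nonempty_iff_eq_empty] at hne
    rw [hne, card_empty]
    exact Nat.zero_le _

/-- the number of labellings with at most `K` distinct labels -/
theorem card_labels (D s N K : ℕ) (hN : 0 < N) :
    (univ.filter (fun L : Fin D → Fin s → Fin N =>
      (univ.image (fun p : Fin D × Fin s => (p.1, L p.1 p.2))).card ≤ K)).card ≤
      K ^ (D * s) * N ^ K := by
  have hsub : (univ.filter (fun L : Fin D → Fin s → Fin N =>
      (univ.image (fun p : Fin D × Fin s => (p.1, L p.1 p.2))).card ≤ K)) ⊆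
      (univ : Finset ((Fin D × Fin s → Fin K) × (Fin K → Fin N))).image
        (fun q => fun i a => q.2 (q.1 (i, a))) := by
    intro L hL
    rw [mem_filter] at hL
    set T := univ.image (fun p : Fin D × Fin s => (p.1, L p.1 p.2)) with hT
    obtain ⟨e⟩ : Nonempty ({x // x ∈ T} ↪ Fin K) :=
      Function.Embedding.nonempty_of_card_le (by simpa using hL.2)
    have hmem : ∀ p : Fin D × Fin s, (p.1, L p.1 p.2) ∈ T := fun p => by
      rw [hT]
      exact mem_image_of_mem _ (mem_univ _)
    rw [mem_image]
    refine ⟨(fun p => e ⟨(p.1, L p.1 p.2), hmem p⟩,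
      Function.extend e (fun x => x.1.2) (fun _ => ⟨0, hN⟩)), mem_univ _, ?_⟩
    funext i a
    simp only
    rw [e.injective.extend_apply]
  refine (card_le_card hsub).trans (card_image_le.trans ?_)
  rw [card_univ, Fintype.card_prod, Fintype.card_fun, Fintype.card_fun, Fintype.card_prod]
  simp

/-- the number of permutations with prescribed blocks of `s` points -/
theorem card_perm_blocks {N s : ℕ} {M : Type} [Fintype M] [DecidableEq M] (e : Fin s → Fin N × M)
    (he : Function.Injective e) (l : Fin s → Fin N) :
    (univ.filter (fun σ : Equiv.Perm (Fin N × M) => ∀ a, (σ (e a)).1 = l a)).card ≤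
      Fintype.card M ^ s * (N * Fintype.card M - s).factorial := by
  have hsub : (univ.filter (fun σ : Equiv.Perm (Fin N × M) => ∀ a, (σ (e a)).1 = l a)) ⊆
      (univ : Finset (Fin s → M)).biUnion
        (fun g => univ.filter (fun σ : Equiv.Perm (Fin N × M) => ∀ a, σ (e a) = (l a, g a))) := by
    intro σ hσ
    rw [mem_filter] at hσ
    rw [mem_biUnion]
    refine ⟨fun a => (σ (e a)).2, mem_univ _, ?_⟩
    rw [mem_filter]
    refine ⟨mem_univ _, fun a => ?_⟩
    rw [← hσ.2 a]
  refine (card_le_card hsub).trans (card_biUnion_le.trans ?_)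
  have h1 : Fintype.card (Fin N × M) = N * Fintype.card M := by
    rw [Fintype.card_prod, Fintype.card_fin]
  refine (sum_le_card_nsmul _ _ ((N * Fintype.card M - s).factorial) ?_).trans (le_of_eq ?_)
  · intro g _
    have := card_perm_fix s e (fun a => (l a, g a)) he
    rw [h1] at this
    exact this
  · rw [card_univ, Fintype.card_fun, Fintype.card_fin, smul_eq_mul]

/-- the number of families of permutations which map a given set onto at most `K` blocks in
total -/
theorem card_families {N K D : ℕ} {M : Type} [Fintype M] [DecidableEq M] (hN : 0 < N)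
    (S : Finset (Fin N × M)) (Q : (Fin D → Equiv.Perm (Fin N × M)) → Prop) [DecidablePred Q]
    (hQ : ∀ π, Q π → ∑ i, (S.image (fun v => (π i v).1)).card ≤ K) :
    (univ.filter Q).card ≤
      K ^ (D * S.card) * N ^ K *
        (Fintype.card M ^ S.card * (N * Fintype.card M - S.card).factorial) ^ D := by
  set s := S.card with hs
  obtain ⟨e, he⟩ : ∃ e : Fin s → Fin N × M, Function.Injective e ∧ ∀ x, x ∈ S ↔ ∃ a, e a = x := by
    refine ⟨fun a => (S.equivFin.symm a).1, ?_, ?_⟩
    · intro a b hab
      exact S.equivFin.symm.injective (Subtype.ext hab)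
    · intro x
      constructor
      · intro hx
        exact ⟨S.equivFin ⟨x, hx⟩, by simp⟩
      · rintro ⟨a, rfl⟩
        exact (S.equivFin.symm a).2
  have hsub : (univ.filter Q) ⊆
      (univ.filter (fun L : Fin D → Fin s → Fin N =>
      (univ.image (fun p : Fin D × Fin s => (p.1, L p.1 p.2))).card ≤ K)).biUnion
        (fun L => univ.filter (fun π : Fin D → Equiv.Perm (Fin N × M) =>
          ∀ i, ∀ a, (π i (e a)).1 = L i a)) := by
    intro π hπ
    rw [mem_filter] at hπ
    rw [mem_biUnion]
    refine ⟨fun i a => (π i (e a)).1, ?_, ?_⟩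
    · rw [mem_filter]
      refine ⟨mem_univ _, le_trans (le_of_eq ?_) (hQ π hπ.2)⟩
      have h1 : (univ.image (fun p : Fin D × Fin s => (p.1, (π p.1 (e p.2)).1))) =
          (univ.sigma (fun i : Fin D => S.image (fun v => (π i v).1))).image
            (fun x => (x.1, x.2)) := by
        ext ⟨i, b⟩
        simp only [mem_image, mem_univ, true_and, mem_sigma, Prod.mk.injEq]
        constructor
        · rintro ⟨⟨i', a⟩, rfl, rfl⟩
          exact ⟨⟨i', (π i' (e a)).1⟩, ⟨e a, (he.2 _).2 ⟨a, rfl⟩, rfl⟩, rfl, rfl⟩
        · rintro ⟨⟨i', b'⟩, ⟨v, hv, hb⟩, rfl, rfl⟩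
          obtain ⟨a, rfl⟩ := (he.2 v).1 hv
          exact ⟨⟨i', a⟩, rfl, hb⟩
      rw [h1, card_image_of_injOn, card_sigma]
      rintro ⟨i, b⟩ _ ⟨i', b'⟩ _ h
      simp only [Prod.mk.injEq] at h
      obtain ⟨rfl, rfl⟩ := h
      rfl
    · rw [mem_filter]
      exact ⟨mem_univ _, fun i a => rfl⟩
  refine (card_le_card hsub).trans (card_biUnion_le.trans ?_)
  refine (sum_le_card_nsmul _ _
    ((Fintype.card M ^ s * (N * Fintype.card M - s).factorial) ^ D) ?_).trans ?_
  · intro L _
    have h1 : (univ.filter (fun π : Fin D → Equiv.Perm (Fin N × M) =>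
          ∀ i, ∀ a, (π i (e a)).1 = L i a)) =
        Fintype.piFinset (fun i => univ.filter (fun σ : Equiv.Perm (Fin N × M) =>
          ∀ a, (σ (e a)).1 = L i a)) := by
      ext π
      rw [mem_filter, Fintype.mem_piFinset]
      simp
    rw [h1, Fintype.card_piFinset]
    calc ∏ i : Fin D, (univ.filter (fun σ : Equiv.Perm (Fin N × M) =>
          ∀ a, (σ (e a)).1 = L i a)).card
        ≤ ∏ _i : Fin D, (Fintype.card M ^ s * (N * Fintype.card M - s).factorial) :=
          prod_le_prod (fun _ _ => Nat.zero_le _) fun i _ => card_perm_blocks e he.1 (L i)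
      _ = _ := by rw [prod_const, card_univ, Fintype.card_fin]
  · rw [smul_eq_mul]
    exact Nat.mul_le_mul_right _ (card_labels D s N K hN)

end Pool.Agent.H31.LB
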