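import Mathlib

set_option autoImplicit false

/-!
# Sets without bad subsets map homomorphically to `R`
-/

namespace Pool.Agent.H31.LB

open Finset Classical

/-- the graph given by `D` bijections onto the template -/
def GG {P : Type} {N h D : ℕ} (R : SimpleGraph P)
    (π : Fin D → Equiv.Perm (Fin N × (P × Fin h))) : SimpleGraph (Fin N × (P × Fin h)) where
  Adj u v := ∃ i, (π i u).1 = (π i v).1 ∧ R.Adj (π i u).2.1 (π i v).2.1
  symm := ⟨fun _ _ ⟨i, h1, h2⟩ => ⟨i, h1.symm, h2.symm⟩⟩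
  loopless := ⟨fun _ ⟨_, _, h⟩ => R.loopless.irrefl _ h⟩

/-- a non-trivial group has at least two elements -/
theorem image_mates {V L : Type} [DecidableEq L] (f : V → L) (S : Finset V) :
    2 * (S.image f).card + (S.filter (fun v => ∃ u ∈ S, u ≠ v ∧ f u = f v)).card ≤ 2 * S.card := by
  rw [card_eq_sum_card_image f S, card_eq_sum_card_fiberwise (f := f)
    (s := S.filter (fun v => ∃ u ∈ S, u ≠ v ∧ f u = f v)) (t := S.image f) (fun v hv =>
      mem_coe.2 (mem_image_of_mem f (mem_filter.1 (mem_coe.1 hv)).1)), mul_sum, mul_comm, ← smul_eq_mul (a := (S.image f).card), ← sum_const,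
    ← sum_add_distrib]
  refine sum_le_sum fun l hl => ?_
  obtain ⟨v, hv, rfl⟩ := mem_image.1 hl
  have h1 : 1 ≤ (S.filter (fun u => f u = f v)).card :=
    card_pos.2 ⟨v, mem_filter.2 ⟨hv, rfl⟩⟩
  by_cases h2 : (S.filter (fun u => f u = f v)).card = 1
  · obtain ⟨w, hw⟩ := card_eq_one.1 h2
    have h3 : ((S.filter (fun v => ∃ u ∈ S, u ≠ v ∧ f u = f v)).filter
        (fun u => f u = f v)) = ∅ := by
      rw [eq_empty_iff_forall_notMem]
      intro x hx
      rw [mem_filter, mem_filter] at hx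
      obtain ⟨⟨hx1, u, hu, hux, hfu⟩, hx2⟩ := hx
      have hx' : x ∈ ({w} : Finset V) := by rw [← hw]; exact mem_filter.2 ⟨hx1, hx2⟩
      have hu' : u ∈ ({w} : Finset V) := by rw [← hw]; exact mem_filter.2 ⟨hu, hfu.trans hx2⟩
      rw [mem_singleton] at hx' hu'
      exact hux (hu'.trans hx'.symm)
    rw [h3, h2, card_empty]
    norm_num
  · have h3 : ((S.filter (fun v => ∃ u ∈ S, u ≠ v ∧ f u = f v)).filter
        (fun u => f u = f v)).card ≤ (S.filter (fun u => f u = f v)).card :=
      card_le_card (filter_subset_filter _ (filter_subset _ _))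
    omega

/-- a set that is not bad has a vertex with mates in at most one class -/
theorem exists_leaf {V L : Type} [DecidableEq L] {D : ℕ} (hD : 0 < D) (f : Fin D → V → L)
    (S : Finset V) (hbad : S.card * (D - 1) < ∑ i, (S.image (f i)).card) :
    ∃ v ∈ S, ∃ i, ∀ j, j ≠ i → ∀ u ∈ S, u ≠ v → f j u ≠ f j v := by
  by_contra hcon
  push Not at hcon
  set M : Finset (Fin D × V) := (univ ×ˢ S).filter
    (fun p => ∃ u ∈ S, u ≠ p.2 ∧ f p.1 u = f p.1 p.2) with hM
  have h1 : M.card = ∑ i, (S.filter (fun v => ∃ u ∈ S, u ≠ v ∧ f i u = f i v)).card := by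
    rw [hM, card_filter, sum_product]
    simp only [card_filter]
  have h2 : M.card = ∑ v ∈ S, ((univ : Finset (Fin D)).filter
      (fun i => ∃ u ∈ S, u ≠ v ∧ f i u = f i v)).card := by
    rw [hM, card_filter, sum_product_right]
    simp only [card_filter]
  have h3 : 2 * S.card ≤ M.card := by
    rw [h2, mul_comm, ← smul_eq_mul, ← sum_const]
    refine sum_le_sum fun v hv => ?_
    obtain ⟨j₁, -, u₁, hu₁, hne₁, he₁⟩ := hcon v hv ⟨0, hD⟩
    obtain ⟨j₂, hj, u₂, hu₂, hne₂, he₂⟩ := hcon v hv j₁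
    have h4 : ({j₁, j₂} : Finset (Fin D)) ⊆
        univ.filter (fun i => ∃ u ∈ S, u ≠ v ∧ f i u = f i v) := by
      intro i hi
      rw [mem_insert, mem_singleton] at hi
      rw [mem_filter]
      refine ⟨mem_univ _, ?_⟩
      rcases hi with rfl | rfl
      · exact ⟨u₁, hu₁, hne₁, he₁⟩
      · exact ⟨u₂, hu₂, hne₂, he₂⟩
    have h5 := card_le_card h4
    rw [card_pair (Ne.symm hj)] at h5
    exact h5
  have h4 : 2 * (∑ i, (S.image (f i)).card) + M.card ≤ D * (2 * S.card) := by
    rw [h1, mul_sum, ← sum_add_distrib]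
    calc _ ≤ ∑ _i : Fin D, 2 * S.card := sum_le_sum fun i _ => image_mates (f i) S
      _ = _ := by rw [sum_const, card_univ, Fintype.card_fin, smul_eq_mul]
  obtain ⟨D', rfl⟩ : ∃ D', D = D' + 1 := ⟨D - 1, by omega⟩
  rw [Nat.add_sub_cancel] at hbad
  have h5 : (D' + 1) * (2 * S.card) = 2 * (S.card * D') + 2 * S.card := by ring
  omega

/-- the coherent maps -/
theorem exists_coherent {P : Type} [Inhabited P] {N h D : ℕ} (hD : 0 < D) (R : SimpleGraph P)
    (hR : ∀ p p' : P, ∃ σ : R ≃g R, σ p = p')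
    (π : Fin D → Equiv.Perm (Fin N × (P × Fin h))) (n : ℕ) :
    ∀ S : Finset (Fin N × (P × Fin h)), S.card = n →
    (∀ S' ⊆ S, S'.Nonempty → S'.card * (D - 1) < ∑ i, (S'.image (fun v => (π i v).1)).card) →
    ∃ φ : Fin N × (P × Fin h) → P, ∀ i, ∀ b : Fin N, ∃ σ : R ≃g R, ∀ u ∈ S, (π i u).1 = b →
      φ u = σ (π i u).2.1 := by
  induction n with
  | zero =>
    intro S hS _
    rw [card_eq_zero] at hS
    subst hS
    exact ⟨fun _ => default, fun i b => ⟨RelIso.refl _, fun u hu => absurd hu (notMem_empty u)⟩⟩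
  | succ n ih =>
    intro S hS hbad
    have hne : S.Nonempty := card_pos.1 (by omega)
    obtain ⟨v, hv, i₀, hi₀⟩ := exists_leaf hD (fun i v => (π i v).1) S
      (hbad S (Subset.refl _) hne)
    obtain ⟨φ₀, hφ₀⟩ := ih (S.erase v) (by rw [card_erase_of_mem hv, hS]; rfl)
      (fun S' hS' hS'' => hbad S' (hS'.trans (erase_subset _ _)) hS'')
    obtain ⟨σ₀, hσ₀⟩ := hφ₀ i₀ (π i₀ v).1
    refine ⟨Function.update φ₀ v (σ₀ (π i₀ v).2.1), fun i b => ?_⟩
    by_cases hi : i = i₀
    · subst hi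
      by_cases hb : b = (π i v).1
      · subst hb
        refine ⟨σ₀, fun u hu hub => ?_⟩
        by_cases huv : u = v
        · subst huv
          rw [Function.update_self]
        · rw [Function.update_of_ne huv]
          exact hσ₀ u (mem_erase.2 ⟨huv, hu⟩) hub
      · obtain ⟨σ, hσ⟩ := hφ₀ i b
        refine ⟨σ, fun u hu hub => ?_⟩
        have huv : u ≠ v := by
          rintro rfl
          exact hb hub.symm
        rw [Function.update_of_ne huv]
        exact hσ u (mem_erase.2 ⟨huv, hu⟩) hub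
    · by_cases hb : b = (π i v).1
      · subst hb
        obtain ⟨σ, hσ⟩ := hR (π i v).2.1 (σ₀ (π i₀ v).2.1)
        refine ⟨σ, fun u hu hub => ?_⟩
        by_cases huv : u = v
        · subst huv
          rw [Function.update_self, hσ]
        · exact absurd hub (hi₀ i hi u hu huv)
      · obtain ⟨σ, hσ⟩ := hφ₀ i b
        refine ⟨σ, fun u hu hub => ?_⟩
        have huv : u ≠ v := by
          rintro rfl
          exact hb hub.symm
        rw [Function.update_of_ne huv]
        exact hσ u (mem_erase.2 ⟨huv, hu⟩) hub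

/-- a set without bad subsets maps homomorphically to `R` -/
theorem exists_hom {P : Type} [Inhabited P] {N h D : ℕ} (hD : 0 < D) (R : SimpleGraph P)
    (hR : ∀ p p' : P, ∃ σ : R ≃g R, σ p = p')
    (π : Fin D → Equiv.Perm (Fin N × (P × Fin h))) (S : Finset (Fin N × (P × Fin h)))
    (hbad : ∀ S' ⊆ S, S'.Nonempty →
      S'.card * (D - 1) < ∑ i, (S'.image (fun v => (π i v).1)).card) :
    ∃ φ : Fin N × (P × Fin h) → P, ∀ u ∈ S, ∀ v ∈ S, (GG R π).Adj u v → R.Adj (φ u) (φ v) := by
  obtain ⟨φ, hφ⟩ := exists_coherent hD R hR π S.card S rfl hbad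
  refine ⟨φ, fun u hu v hv ⟨i, h1, h2⟩ => ?_⟩
  obtain ⟨σ, hσ⟩ := hφ i (π i u).1
  rw [hσ u hu rfl, hσ v hv h1.symm]
  exact σ.map_rel_iff.2 h2

/-- the degrees in `GG R π` -/
theorem degree_le {P : Type} [Fintype P] {N h D d : ℕ} (R : SimpleGraph P)
    (hd : ∀ p, R.degree p ≤ d) (π : Fin D → Equiv.Perm (Fin N × (P × Fin h)))
    (x : Fin N × (P × Fin h)) : (GG R π).degree x ≤ D * (d * h) := by
  rw [← SimpleGraph.card_neighborFinset_eq_degree]
  have hsub : (GG R π).neighborFinset x ⊆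
      (univ : Finset (Fin D)).biUnion (fun i => ((R.neighborFinset (π i x).2.1) ×ˢ
        (univ : Finset (Fin h))).image (fun q => (π i).symm ((π i x).1, q))) := by
    intro y hy
    rw [SimpleGraph.mem_neighborFinset] at hy
    obtain ⟨i, h1, h2⟩ := hy
    rw [mem_biUnion]
    refine ⟨i, mem_univ _, ?_⟩
    rw [mem_image]
    refine ⟨(π i y).2, ?_, ?_⟩
    · rw [mem_product, SimpleGraph.mem_neighborFinset]
      exact ⟨h2, mem_univ _⟩
    · rw [h1]
      exact (π i).symm_apply_apply y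
  refine (card_le_card hsub).trans (card_biUnion_le.trans ?_)
  calc ∑ i : Fin D, (((R.neighborFinset (π i x).2.1) ×ˢ
        (univ : Finset (Fin h))).image (fun q => (π i).symm ((π i x).1, q))).card
      ≤ ∑ _i : Fin D, d * h := by
        refine sum_le_sum fun i _ => card_image_le.trans ?_
        rw [card_product, card_univ, Fintype.card_fin, SimpleGraph.card_neighborFinset_eq_degree]
        exact Nat.mul_le_mul_right _ (hd _)
    _ = _ := by rw [sum_const, card_univ, Fintype.card_fin, smul_eq_mul]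

end Pool.Agent.H31.LB
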