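import Mathlib
import Pool.Agent.H31.LB.Count
import Pool.Agent.H31.LB.Perm
import Pool.Agent.H31.LB.Struct

set_option autoImplicit false

/-!
# Existence of good families of permutations
-/

namespace Pool.Agent.H31.LB

open Finset Classical

/-- the set `S` is bad for `π` -/
def Bad {N D : ℕ} {M : Type} (π : Fin D → Equiv.Perm (Fin N × M)) (S : Finset (Fin N × M)) : Prop :=
  ∑ i, (S.image (fun v => (π i v).1)).card ≤ S.card * (D - 1)

/-- the bound for the mean number of bad sets of at most `f` elements; `m` is the size of a block -/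
def KB (D m f : ℕ) : ℕ := ∑ s ∈ Icc 1 f, (s * (D - 1)) ^ (D * s) * m ^ s * (2 ^ s) ^ D

theorem pow_mul_factorial_le (n s : ℕ) (h : 2 * s ≤ n) :
    n ^ s * (n - s).factorial ≤ 2 ^ s * n.factorial := by
  rw [← Nat.factorial_mul_descFactorial (show s ≤ n by omega)]
  have h1 : n ^ s ≤ 2 ^ s * n.descFactorial s := by
    calc n ^ s ≤ (2 * (n + 1 - s)) ^ s := Nat.pow_le_pow_left (by omega) _
      _ = 2 ^ s * (n + 1 - s) ^ s := by rw [mul_pow]
      _ ≤ 2 ^ s * n.descFactorial s := Nat.mul_le_mul_left _ (Nat.pow_sub_le_descFactorial n s)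
  calc n ^ s * (n - s).factorial ≤ 2 ^ s * n.descFactorial s * (n - s).factorial :=
        Nat.mul_le_mul_right _ h1
    _ = _ := by ring

/-- the mean number of bad sets -/
theorem sum_bad_le {N D f : ℕ} {M : Type} [Fintype M] [DecidableEq M] (hN : 0 < N) (hD : 0 < D)
    (hf : 2 * f ≤ N * Fintype.card M) :
    ∑ π : Fin D → Equiv.Perm (Fin N × M), (univ.filter (fun S : Finset (Fin N × M) =>
      S.Nonempty ∧ S.card ≤ f ∧ Bad π S)).card ≤
      KB D (Fintype.card M) f * ((N * Fintype.card M).factorial) ^ D := by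
  set m := Fintype.card M with hm
  have hn : Fintype.card (Fin N × M) = N * m := by
    rw [Fintype.card_prod, Fintype.card_fin]
  calc ∑ π : Fin D → Equiv.Perm (Fin N × M), (univ.filter (fun S : Finset (Fin N × M) =>
      S.Nonempty ∧ S.card ≤ f ∧ Bad π S)).card
      ≤ ∑ π : Fin D → Equiv.Perm (Fin N × M), ∑ s ∈ Icc 1 f,
        ((powersetCard s (univ : Finset (Fin N × M))).filter (fun S => Bad π S)).card := by
        refine sum_le_sum fun π _ => ?_
        refine le_trans (card_le_card ?_) card_biUnion_le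
        intro S hS
        rw [mem_filter] at hS
        rw [mem_biUnion]
        refine ⟨S.card, ?_, ?_⟩
        · rw [mem_Icc]
          exact ⟨card_pos.2 hS.2.1, hS.2.2.1⟩
        · rw [mem_filter, mem_powersetCard]
          exact ⟨⟨subset_univ _, rfl⟩, hS.2.2.2⟩
    _ = ∑ s ∈ Icc 1 f, ∑ S ∈ powersetCard s (univ : Finset (Fin N × M)),
        (univ.filter (fun π : Fin D → Equiv.Perm (Fin N × M) => Bad π S)).card := by
        rw [sum_comm]
        refine sum_congr rfl fun s _ => ?_
        simp only [card_filter]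
        rw [sum_comm]
    _ ≤ ∑ s ∈ Icc 1 f, ((s * (D - 1)) ^ (D * s) * m ^ s * (2 ^ s) ^ D) *
        ((N * m).factorial) ^ D := by
        refine sum_le_sum fun s hs => ?_
        rw [mem_Icc] at hs
        calc ∑ S ∈ powersetCard s (univ : Finset (Fin N × M)),
            (univ.filter (fun π : Fin D → Equiv.Perm (Fin N × M) => Bad π S)).card
            ≤ ∑ S ∈ powersetCard s (univ : Finset (Fin N × M)),
              (s * (D - 1)) ^ (D * s) * N ^ (s * (D - 1)) *
                (m ^ s * (N * m - s).factorial) ^ D := by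
              refine sum_le_sum fun S hS => ?_
              have h1 := card_families (D := D) (K := s * (D - 1)) hN S (fun π => Bad π S)
                (fun π hπ => by
                  unfold Bad at hπ
                  rw [(mem_powersetCard.1 hS).2] at hπ
                  exact hπ)
              rw [(mem_powersetCard.1 hS).2] at h1
              exact h1
          _ = (N * m).choose s * ((s * (D - 1)) ^ (D * s) * N ^ (s * (D - 1)) *
                (m ^ s * (N * m - s).factorial) ^ D) := by
              rw [sum_const, card_powersetCard, card_univ, hn, smul_eq_mul]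
          _ ≤ (N * m) ^ s * ((s * (D - 1)) ^ (D * s) * N ^ (s * (D - 1)) *
                (m ^ s * (N * m - s).factorial) ^ D) :=
              Nat.mul_le_mul_right _ (Nat.choose_le_pow _ _)
          _ = (s * (D - 1)) ^ (D * s) * m ^ s * ((N * m) ^ s * (N * m - s).factorial) ^ D := by
              obtain ⟨D', rfl⟩ : ∃ D', D = D' + 1 := ⟨D - 1, by omega⟩
              rw [Nat.add_sub_cancel]
              generalize (N * m - s).factorial = A
              rw [mul_pow N m s]
              have e1 : N ^ (s * D') = (N ^ s) ^ D' := by rw [pow_mul]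
              rw [e1]
              generalize N ^ s = B
              generalize m ^ s = C
              generalize (s * D') ^ ((D' + 1) * s) = E
              ring
          _ ≤ (s * (D - 1)) ^ (D * s) * m ^ s * (2 ^ s * (N * m).factorial) ^ D :=
              Nat.mul_le_mul_left _ (Nat.pow_le_pow_left
                (pow_mul_factorial_le (N * m) s (by omega)) _)
          _ = _ := by rw [mul_pow (2 ^ s)]; ring
    _ = _ := by
        unfold KB
        rw [sum_mul]

/-- the mean number of independent `k`-sets -/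
theorem sum_indep_le {P : Type} [Fintype P] (R : SimpleGraph P) {N h k D : ℕ}
    (hk : k ≤ N * (Fintype.card P * h))
    (hX : 2 * (N * (Fintype.card P * h)).choose k * (JJ R N h k).card ^ D ≤
      ((N * (Fintype.card P * h)).choose k) ^ D) :
    2 * ∑ π : Fin D → Equiv.Perm (Fin N × (P × Fin h)),
      (univ.filter (fun I : Finset (Fin N × (P × Fin h)) => I.card = k ∧
        ∀ u ∈ I, ∀ v ∈ I, ¬ (GG R π).Adj u v)).card ≤
      ((N * (Fintype.card P * h)).factorial) ^ D := by
  set n := N * (Fintype.card P * h) with hn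
  have hcard : Fintype.card (Fin N × (P × Fin h)) = n := by
    rw [Fintype.card_prod, Fintype.card_prod, Fintype.card_fin, Fintype.card_fin]
  have hpos : 0 < n.choose k := Nat.choose_pos hk
  have h1 : ∀ π : Fin D → Equiv.Perm (Fin N × (P × Fin h)),
      (univ.filter (fun I : Finset (Fin N × (P × Fin h)) => I.card = k ∧
        ∀ u ∈ I, ∀ v ∈ I, ¬ (GG R π).Adj u v)) =
      (powersetCard k univ).filter (fun I => ∀ i, I.map (π i).toEmbedding ∈ JJ R N h k) := by
    intro π
    ext I
    rw [mem_filter, mem_filter, mem_powersetCard]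
    unfold JJ
    constructor
    · rintro ⟨-, hI, h1⟩
      refine ⟨⟨subset_univ _, hI⟩, fun i => ?_⟩
      rw [mem_filter, mem_powersetCard]
      refine ⟨⟨subset_univ _, by rw [card_map]; exact hI⟩, ?_⟩
      intro u hu v hv huv
      rw [mem_map] at hu hv
      obtain ⟨u', hu', rfl⟩ := hu
      obtain ⟨v', hv', rfl⟩ := hv
      exact h1 u' hu' v' hv' ⟨i, huv.1, huv.2⟩
    · rintro ⟨⟨-, hI⟩, h1⟩
      refine ⟨mem_univ _, hI, ?_⟩
      rintro u hu v hv ⟨i, h2, h3⟩
      have h4 := (mem_filter.1 (h1 i)).2
      exact h4 _ (mem_map_of_mem _ hu) _ (mem_map_of_mem _ hv) ⟨h2, h3⟩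
  have h2 : ∀ I ∈ powersetCard k (univ : Finset (Fin N × (P × Fin h))),
      (n.choose k) ^ D * (univ.filter (fun π : Fin D → Equiv.Perm (Fin N × (P × Fin h)) =>
        ∀ i, I.map (π i).toEmbedding ∈ JJ R N h k)).card =
      (n.factorial * (JJ R N h k).card) ^ D := by
    intro I hI
    rw [mem_powersetCard] at hI
    have h3 : (univ.filter (fun π : Fin D → Equiv.Perm (Fin N × (P × Fin h)) =>
        ∀ i, I.map (π i).toEmbedding ∈ JJ R N h k)) =
        Fintype.piFinset (fun _ => univ.filter (fun σ : Equiv.Perm (Fin N × (P × Fin h)) =>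
          I.map σ.toEmbedding ∈ JJ R N h k)) := by
      ext π
      rw [mem_filter, Fintype.mem_piFinset]
      simp
    rw [h3, Fintype.card_piFinset, prod_const, card_univ, Fintype.card_fin, ← mul_pow]
    congr 1
    have h4 := card_perm_mem (JJ R N h k) k (fun I' hI' => by
      unfold JJ at hI'
      exact (mem_powersetCard.1 (mem_filter.1 hI').1).2) I hI.2
    rw [hcard] at h4
    exact h4
  have h3 : (n.choose k) ^ D * ∑ π : Fin D → Equiv.Perm (Fin N × (P × Fin h)),
      (univ.filter (fun I : Finset (Fin N × (P × Fin h)) => I.card = k ∧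
        ∀ u ∈ I, ∀ v ∈ I, ¬ (GG R π).Adj u v)).card =
      n.choose k * (n.factorial * (JJ R N h k).card) ^ D := by
    rw [sum_congr rfl (fun π _ => by rw [h1 π])]
    have h4 : ∑ π : Fin D → Equiv.Perm (Fin N × (P × Fin h)),
        ((powersetCard k (univ : Finset (Fin N × (P × Fin h)))).filter
          (fun I => ∀ i, I.map (π i).toEmbedding ∈ JJ R N h k)).card =
        ∑ I ∈ powersetCard k (univ : Finset (Fin N × (P × Fin h))),
        (univ.filter (fun π : Fin D → Equiv.Perm (Fin N × (P × Fin h)) =>
          ∀ i, I.map (π i).toEmbedding ∈ JJ R N h k)).card := by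
      simp only [card_filter]
      rw [sum_comm]
    rw [h4, mul_sum, sum_congr rfl h2, sum_const, card_powersetCard, card_univ, hcard, smul_eq_mul]
  have h4 : 0 < (n.choose k) ^ D := pow_pos hpos _
  refine Nat.le_of_mul_le_mul_left ?_ h4
  calc (n.choose k) ^ D * (2 * ∑ π : Fin D → Equiv.Perm (Fin N × (P × Fin h)),
      (univ.filter (fun I : Finset (Fin N × (P × Fin h)) => I.card = k ∧
        ∀ u ∈ I, ∀ v ∈ I, ¬ (GG R π).Adj u v)).card)
      = 2 * (n.choose k * (n.factorial * (JJ R N h k).card) ^ D) := by rw [← h3]; ring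
    _ = (2 * n.choose k * (JJ R N h k).card ^ D) * n.factorial ^ D := by rw [mul_pow]; ring
    _ ≤ (n.choose k) ^ D * n.factorial ^ D := Nat.mul_le_mul_right _ hX

/-- a good family of permutations -/
theorem exists_family {P : Type} [Fintype P] (R : SimpleGraph P) {N h k D f : ℕ}
    (hN : 0 < N) (hD : 0 < D) (hf : 2 * f ≤ N * (Fintype.card P * h))
    (hk : k ≤ N * (Fintype.card P * h))
    (hX : 2 * (N * (Fintype.card P * h)).choose k * (JJ R N h k).card ^ D ≤
      ((N * (Fintype.card P * h)).choose k) ^ D) :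
    ∃ π : Fin D → Equiv.Perm (Fin N × (P × Fin h)),
      (∀ I : Finset (Fin N × (P × Fin h)), I.card = k → ∃ u ∈ I, ∃ v ∈ I, (GG R π).Adj u v) ∧
      (univ.filter (fun S : Finset (Fin N × (P × Fin h)) =>
        S.Nonempty ∧ S.card ≤ f ∧ Bad π S)).card ≤ 2 * KB D (Fintype.card P * h) f := by
  have hcard : Fintype.card (P × Fin h) = Fintype.card P * h := by
    rw [Fintype.card_prod, Fintype.card_fin]
  by_contra hcon
  push Not at hcon
  set K := KB D (Fintype.card P * h) f with hK
  have h1 := sum_bad_le (M := P × Fin h) (f := f) hN hD (by rw [hcard]; exact hf)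
  rw [hcard] at h1
  have h2 := sum_indep_le R hk hX
  set n := N * (Fintype.card P * h) with hn
  have hΩ : ∑ _π : Fin D → Equiv.Perm (Fin N × (P × Fin h)), 1 = n.factorial ^ D := by
    rw [sum_const, card_univ, Fintype.card_fun, Fintype.card_fin, Fintype.card_perm,
      Fintype.card_prod, Fintype.card_fin, hcard, smul_eq_mul, mul_one]
  have h3 : ∑ _π : Fin D → Equiv.Perm (Fin N × (P × Fin h)), (2 * K + 1) * 1 ≤
      ∑ π : Fin D → Equiv.Perm (Fin N × (P × Fin h)), ((2 * K + 1) *
      (univ.filter (fun I : Finset (Fin N × (P × Fin h)) => I.card = k ∧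
        ∀ u ∈ I, ∀ v ∈ I, ¬ (GG R π).Adj u v)).card + (univ.filter (fun S : Finset (Fin N × (P × Fin h)) =>
        S.Nonempty ∧ S.card ≤ f ∧ Bad π S)).card) := by
    refine sum_le_sum fun π _ => ?_
    by_cases hπ : ∀ I : Finset (Fin N × (P × Fin h)), I.card = k →
        ∃ u ∈ I, ∃ v ∈ I, (GG R π).Adj u v
    · have := hcon π hπ
      omega
    · push Not at hπ
      obtain ⟨I, hI, hI2⟩ := hπ
      have : 1 ≤ (univ.filter (fun I : Finset (Fin N × (P × Fin h)) => I.card = k ∧
        ∀ u ∈ I, ∀ v ∈ I, ¬ (GG R π).Adj u v)).card :=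
        card_pos.2 ⟨I, mem_filter.2 ⟨mem_univ _, hI, hI2⟩⟩
      exact (Nat.mul_le_mul_left _ this).trans (Nat.le_add_right _ _)
  rw [← mul_sum, hΩ, sum_add_distrib, ← mul_sum] at h3
  have h4 : 0 < n.factorial ^ D := pow_pos (Nat.factorial_pos _) _
  set X := ∑ π : Fin D → Equiv.Perm (Fin N × (P × Fin h)),
      (univ.filter (fun I : Finset (Fin N × (P × Fin h)) => I.card = k ∧
        ∀ u ∈ I, ∀ v ∈ I, ¬ (GG R π).Adj u v)).card with hXX
  rw [← hK] at h1
  have h1' : (∑ π : Fin D → Equiv.Perm (Fin N × (P × Fin h)),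
    (univ.filter (fun S : Finset (Fin N × (P × Fin h)) =>
        S.Nonempty ∧ S.card ≤ f ∧ Bad π S)).card) ≤ K * n.factorial ^ D := by
    exact h1
  have h5 := Nat.mul_le_mul_left (2 * K + 1) h2
  generalize n.factorial ^ D = a at *
  generalize (∑ π : Fin D → Equiv.Perm (Fin N × (P × Fin h)),
    (univ.filter (fun S : Finset (Fin N × (P × Fin h)) =>
        S.Nonempty ∧ S.card ≤ f ∧ Bad π S)).card) = Y at *
  clear_value X K
  nlinarith

/-- the graph with the chosen vertices removed; every set of at most `f` vertices of it maps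
homomorphically to `R` -/
theorem exists_graph {P : Type} [Fintype P] [Inhabited P] (R : SimpleGraph P)
    (hR : ∀ p p' : P, ∃ σ : R ≃g R, σ p = p') {d : ℕ} (hd : ∀ p, R.degree p ≤ d)
    {N h k D f : ℕ} (hN : 0 < N) (hh : 0 < h) (hD : 0 < D)
    (hf : 2 * f ≤ N * (Fintype.card P * h))
    (hk : k ≤ N * (Fintype.card P * h))
    (hX : 2 * (N * (Fintype.card P * h)).choose k * (JJ R N h k).card ^ D ≤
      ((N * (Fintype.card P * h)).choose k) ^ D) :
    ∃ (V : Type) (_ : Fintype V) (G : SimpleGraph V),
      (∀ S : Finset V, S.card ≤ f → ∃ φ : V → P, ∀ u ∈ S, ∀ v ∈ S, G.Adj u v →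
        R.Adj (φ u) (φ v)) ∧
      (∀ v, G.degree v ≤ D * (d * h)) ∧
      ∀ c, G.Colorable c → N * (Fintype.card P * h) ≤
        c * k + 2 * KB D (Fintype.card P * h) f := by
  obtain ⟨π, hπ1, hπ2⟩ := exists_family R hN hD hf hk hX
  have hch : ∀ S : Finset (Fin N × (P × Fin h)), ∃ x, S.Nonempty → x ∈ S := by
    intro S
    by_cases hS : S.Nonempty
    · obtain ⟨x, hx⟩ := hS
      exact ⟨x, fun _ => hx⟩
    · exact ⟨(⟨0, hN⟩, default, ⟨0, hh⟩), fun h => absurd h hS⟩
  choose ch hch using hch
  set B := univ.filter (fun S : Finset (Fin N × (P × Fin h)) =>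
        S.Nonempty ∧ S.card ≤ f ∧ Bad π S) with hB
  set X := B.image ch with hXdef
  refine ⟨{v // v ∉ X}, inferInstance, (GG R π).comap (fun v : {v // v ∉ X} => v.1), ?_, ?_, ?_⟩
  · intro S hS
    have hbad : ∀ S' ⊆ S.map (Function.Embedding.subtype _), S'.Nonempty →
        S'.card * (D - 1) < ∑ i, (S'.image (fun v => (π i v).1)).card := by
      intro S' hS' hne
      by_contra hle
      rw [not_lt] at hle
      have h1 : S' ∈ B := by
        rw [hB, mem_filter]
        refine ⟨mem_univ _, hne, ?_, hle⟩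
        exact (card_le_card hS').trans (by rw [card_map]; exact hS)
      have h2 : ch S' ∈ X := mem_image_of_mem _ h1
      have h3 := hS' (hch S' hne)
      rw [mem_map] at h3
      obtain ⟨w, -, hw⟩ := h3
      rw [← hw] at h2
      exact w.2 h2
    obtain ⟨ψ, hψ⟩ := exists_hom hD R hR π _ hbad
    exact ⟨fun v => ψ v.1, fun u hu v hv huv =>
      hψ _ (mem_map_of_mem _ hu) _ (mem_map_of_mem _ hv) huv⟩
  · intro v
    refine le_trans ?_ (degree_le R hd π v.1)
    rw [← SimpleGraph.card_neighborFinset_eq_degree, ← SimpleGraph.card_neighborFinset_eq_degree]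
    refine card_le_card_of_injOn (fun u => u.1) ?_ (fun _ _ _ _ h => Subtype.ext h)
    intro u hu
    have hu' := (SimpleGraph.mem_neighborFinset _ _ _).1 (mem_coe.1 hu)
    exact mem_coe.2 ((SimpleGraph.mem_neighborFinset _ _ _).2 hu')
  · intro c hc
    obtain ⟨C⟩ := hc
    have h1 : Fintype.card {v // v ∉ X} + X.card = N * (Fintype.card P * h) := by
      rw [Fintype.card_subtype_compl, Fintype.card_coe]
      have h2 : Fintype.card (Fin N × (P × Fin h)) = N * (Fintype.card P * h) := by
        rw [Fintype.card_prod, Fintype.card_prod, Fintype.card_fin, Fintype.card_fin]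
      have h3 : X.card ≤ Fintype.card (Fin N × (P × Fin h)) := card_le_univ _
      omega
    have h2 : X.card ≤ 2 * KB D (Fintype.card P * h) f := card_image_le.trans hπ2
    have h3 : Fintype.card {v // v ∉ X} ≤ c * k := by
      rw [← card_univ, card_eq_sum_card_fiberwise (f := C) (t := (univ : Finset (Fin c)))
        (fun _ _ => mem_univ _)]
      calc ∑ b : Fin c, (univ.filter (fun v => C v = b)).card ≤ ∑ _b : Fin c, k := by
            refine sum_le_sum fun b _ => ?_
            by_contra hlt
            rw [not_le] at hlt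
            obtain ⟨I, hI, hIc⟩ := exists_subset_card_eq hlt.le
            obtain ⟨u, hu, v, hv, huv⟩ := hπ1 (I.map (Function.Embedding.subtype _))
              (by rw [card_map]; exact hIc)
            rw [mem_map] at hu hv
            obtain ⟨u', hu', rfl⟩ := hu
            obtain ⟨v', hv', rfl⟩ := hv
            have h4 := (mem_filter.1 (hI hu')).2
            have h5 := (mem_filter.1 (hI hv')).2
            exact C.valid huv (h4.trans h5.symm)
        _ = c * k := by rw [sum_const, card_univ, Fintype.card_fin, smul_eq_mul]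
    omega

/-- a graph without a homomorphism to `R` is not contained in `G` -/
theorem free_of_local {P V W : Type} [Fintype V] [Fintype W] (R : SimpleGraph P)
    (F : SimpleGraph W) (hF : IsEmpty (F →g R)) (G : SimpleGraph V) {f : ℕ}
    (hf : Fintype.card W ≤ f)
    (hG : ∀ S : Finset V, S.card ≤ f → ∃ φ : V → P, ∀ u ∈ S, ∀ v ∈ S, G.Adj u v →
      R.Adj (φ u) (φ v)) : F.Free G := by
  rintro ⟨φ⟩
  obtain ⟨ψ, hψ⟩ := hG (univ.image (fun w => φ w)) (card_image_le.trans (by rwa [card_univ]))
  refine hF.false ⟨fun w => ψ (φ w), fun {a b} hab => ?_⟩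
  exact hψ _ (mem_image_of_mem _ (mem_univ a)) _ (mem_image_of_mem _ (mem_univ b))
    (φ.toHom.map_adj hab)

end Pool.Agent.H31.LB
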