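import Mathlib
import Pool.Agent.H31.LB.Count

set_option autoImplicit false

/-!
# The first moment inequality
-/

namespace Pool.Agent.H31.LB

open Finset Classical Filter

/-- `k! ≤ (k+1)^(k+1) e^{-k}` -/
theorem log_factorial_le (k : ℕ) :
    Real.log (k.factorial : ℝ) ≤ (k + 1) * Real.log (k + 1) - k := by
  induction k with
  | zero => simp
  | succ k ih =>
    have hk : (0 : ℝ) < k + 1 := by positivity
    have hk2 : (0 : ℝ) < k + 2 := by positivity
    rw [Nat.factorial_succ, Nat.cast_mul, Real.log_mul (by positivity) (by positivity)]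
    have h1 := Real.one_sub_inv_le_log_of_pos (show 0 < ((k : ℝ) + 2) / (k + 1) by positivity)
    rw [Real.log_div hk2.ne' hk.ne', inv_div] at h1
    have h2 : (k + 2) * (1 - ((k : ℝ) + 1) / (k + 2)) = 1 := by
      field_simp
      ring
    have h3 := mul_le_mul_of_nonneg_left h1 hk2.le
    rw [h2] at h3
    push_cast
    have e1 : (k : ℝ) + 1 + 1 = k + 2 := by ring
    rw [e1]
    nlinarith

theorem le_log_factorial (k : ℕ) (hk : 0 < k) :
    k * Real.log k - k ≤ Real.log (k.factorial : ℝ) := by
  have hk' : (0 : ℝ) < k := by exact_mod_cast hk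
  have h1 : (k : ℝ) ^ k / (k.factorial : ℝ) ≤ Real.exp k :=
    Real.pow_div_factorial_le_exp _ hk'.le _
  have h2 : (k : ℝ) ^ k / (k.factorial : ℝ) ≤ Real.exp k := h1
  rw [← Real.log_le_iff_le_exp (by positivity), Real.log_div (by positivity) (by positivity),
    Real.log_pow] at h2
  linarith

theorem log_choose_le (n k : ℕ) (hk : 0 < k) (hkn : k ≤ n) :
    Real.log (n.choose k : ℝ) ≤ k * (1 + Real.log n - Real.log k) := by
  have h0 : (0 : ℝ) < n.choose k := by exact_mod_cast Nat.choose_pos hkn
  have hn : (0 : ℝ) < n := by exact_mod_cast (lt_of_lt_of_le hk hkn)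
  have h1 : (n.choose k : ℝ) ≤ (n : ℝ) ^ k / (k.factorial : ℝ) := Nat.choose_le_pow_div _ _
  have h2 := Real.log_le_log h0 h1
  rw [Real.log_div (by positivity) (by positivity), Real.log_pow] at h2
  have h3 := le_log_factorial k hk
  nlinarith

theorem le_log_choose (n k : ℕ) (hkn : k < n) :
    k * Real.log (n - k) - ((k + 1) * Real.log (k + 1) - k) ≤ Real.log (n.choose k : ℝ) := by
  have h0 : (0 : ℝ) < n.choose k := by exact_mod_cast Nat.choose_pos hkn.le
  have hnk : (0 : ℝ) < (n : ℝ) - k := by
    have : (k : ℝ) < n := by exact_mod_cast hkn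
    linarith
  have h1 : (n - k) ^ k ≤ k.factorial * n.choose k := by
    rw [← Nat.descFactorial_eq_factorial_mul_choose]
    exact (Nat.pow_le_pow_left (by omega) _).trans (Nat.pow_sub_le_descFactorial n k)
  have h2 : ((n : ℝ) - k) ^ k ≤ (k.factorial : ℝ) * (n.choose k : ℝ) := by
    rw [← Nat.cast_sub hkn.le]
    exact_mod_cast h1
  have h3 := Real.log_le_log (by positivity) h2
  rw [Real.log_pow, Real.log_mul (by positivity) h0.ne'] at h3
  have h4 := log_factorial_le k
  linarith

/-- the exponent of the first moment for one template -/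
noncomputable def AA {P : Type} [Fintype P] (R : SimpleGraph P) (x y : ℝ) : ℝ :=
  x * (1 + Real.log (Fintype.card P * y / x)) - Real.log (Z R (Real.exp y - 1))

/-- the exponent with the correction for finite `h` -/
noncomputable def AAh {P : Type} [Fintype P] (R : SimpleGraph P) (x y : ℝ) (h : ℕ) : ℝ :=
  x * (1 + Real.log ((Fintype.card P - x / h) * y / x)) - Real.log (Z R (Real.exp y - 1))

theorem tendsto_AAh {P : Type} [Fintype P] (R : SimpleGraph P) (x y : ℝ) (hx : 0 < x)
    (hy : 0 < y) (hP : 0 < Fintype.card P) :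
    Tendsto (AAh R x y) atTop (nhds (AA R x y)) := by
  unfold AAh AA
  have hP' : (0 : ℝ) < Fintype.card P := by exact_mod_cast hP
  have h1 : Tendsto (fun h : ℕ => x / (h : ℝ)) atTop (nhds 0) :=
    tendsto_const_div_atTop_nhds_zero_nat x
  have h2 : Tendsto (fun h : ℕ => ((Fintype.card P : ℝ) - x / (h : ℝ)) * y / x) atTop
      (nhds (((Fintype.card P : ℝ) - 0) * y / x)) :=
    (((tendsto_const_nhds.sub h1).mul_const y).div_const x)
  rw [sub_zero] at h2
  have h3 := h2.log (by positivity)
  exact (((tendsto_const_nhds.add h3).const_mul x).sub_const _)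

/-- the logarithm of the first moment for one template -/
theorem log_JJ_sub_le {P : Type} [Fintype P] (R : SimpleGraph P) (hP : 0 < Fintype.card P)
    (N h k : ℕ) (x y : ℝ) (hx : 0 < x) (hy : 0 < y) (hN : 0 < N) (hh : 0 < h)
    (hkx : (k : ℝ) = x * N) (hxh : x < Fintype.card P) (hJ : 0 < (JJ R N h k).card) :
    Real.log ((JJ R N h k).card : ℝ) -
      Real.log ((N * (Fintype.card P * h)).choose k : ℝ) ≤
      - (N * AAh R x y h) + 1 + Real.log (k + 1) := by
  have hN' : (0 : ℝ) < N := by exact_mod_cast hN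
  have hh' : (0 : ℝ) < h := by exact_mod_cast hh
  have hh1 : (1 : ℝ) ≤ h := by exact_mod_cast hh
  have hk' : (0 : ℝ) < k := by rw [hkx]; positivity
  have hP' : (0 : ℝ) < Fintype.card P := by exact_mod_cast hP
  set q : ℝ := (Fintype.card P : ℝ) with hq
  have hJ' : (0 : ℝ) < (JJ R N h k).card := by exact_mod_cast hJ
  have hZ : 1 ≤ Z R (Real.exp y - 1) := one_le_Z R _ (by
    have := Real.add_one_le_exp y
    linarith)
  have h1 := card_JJ_le' R N h k hh y hy.le
  have h2 := Real.log_le_log (by positivity) h1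
  rw [Real.log_mul hJ'.ne' (by positivity), Real.log_pow, Real.log_pow] at h2
  have hxq : x < q * h := lt_of_lt_of_le hxh (by nlinarith)
  have hkn : k < N * (Fintype.card P * h) := by
    have : (k : ℝ) < N * (q * h) := by
      rw [hkx, mul_comm]
      exact mul_lt_mul_of_pos_left hxq hN'
    rw [hq] at this
    exact_mod_cast this
  have h3 := le_log_choose _ _ hkn
  push_cast at h3
  rw [← hq] at h3
  have h4 : (N : ℝ) * (q * h) - k = N * (q * h - x) := by rw [hkx]; ring
  have hqx : 0 < q * h - x := by linarith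
  rw [h4, Real.log_mul hN'.ne' hqx.ne'] at h3
  -- (k+1) log (k+1) ≤ k log k + 1 + log (k+1)
  have h5 : k * Real.log (k + 1) ≤ k * Real.log k + 1 := by
    have h6 := Real.log_le_sub_one_of_pos (show 0 < ((k : ℝ) + 1) / k by positivity)
    rw [Real.log_div (by positivity) hk'.ne'] at h6
    have h7 : k * (((k : ℝ) + 1) / k - 1) = 1 := by field_simp; ring
    have h8 := mul_le_mul_of_nonneg_left h6 hk'.le
    rw [h7] at h8
    linarith
  have h6 : Real.log k = Real.log x + Real.log N := by rw [hkx, Real.log_mul hx.ne' hN'.ne']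
  have h7 : Real.log ((q - x / h) * y / x) = Real.log (q * h - x) + Real.log (y / h) -
      Real.log x := by
    rw [← Real.log_mul hqx.ne' (by positivity), ← Real.log_div (by positivity) hx.ne']
    congr 1
    field_simp
  have h8 : AAh R x y h = x * (1 + Real.log ((q - x / h) * y / x)) -
      Real.log (Z R (Real.exp y - 1)) := rfl
  rw [h8, h7]
  have e1 : (N : ℝ) * (x * (1 + (Real.log (q * h - x) + Real.log (y / h) - Real.log x)) -
      Real.log (Z R (Real.exp y - 1))) =
      k * (1 + (Real.log (q * h - x) + Real.log (y / h) - Real.log x)) -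
      N * Real.log (Z R (Real.exp y - 1)) := by rw [hkx]; ring
  rw [e1]
  have e2 : (k : ℝ) * Real.log k = k * Real.log x + k * Real.log N := by rw [h6]; ring
  nlinarith

theorem final_ineq (D LJ LC bM A L X M : ℝ) (h13 : D * (LJ - LC) ≤ D * (-(bM * A) + 1 + L))
    (h14 : bM * (X - D * A) ≤ bM * (-1)) (h11 : LC ≤ bM * X) (h5 : D * L ≤ bM / 2)
    (h6 : 2 * (Real.log 2 + D) ≤ M) (h17 : M ≤ bM) :
    Real.log 2 + LC + D * LJ ≤ D * LC := by
  linarith

theorem eventually_first_moment {P : Type} [Fintype P] (R : SimpleGraph P)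
    (hP : 0 < Fintype.card P) (a b : ℕ) (ha : 0 < a) (hb : 0 < b) (hab : a < b * Fintype.card P)
    (y θ : ℝ) (hy : 0 < y) (hθ : 0 < θ) (hA : (a / b : ℝ) < θ * AA R (a / b) y) :
    ∀ᶠ h : ℕ in atTop, ∀ᶠ M : ℕ in atTop,
      2 * ((b * M) * (Fintype.card P * h)).choose (a * M) *
        (JJ R (b * M) h (a * M)).card ^ ⌈θ * Real.log h⌉₊ ≤
      (((b * M) * (Fintype.card P * h)).choose (a * M)) ^ ⌈θ * Real.log h⌉₊ := by
  set x : ℝ := (a / b : ℝ) with hx
  have ha' : (0 : ℝ) < a := by exact_mod_cast ha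
  have hb' : (0 : ℝ) < b := by exact_mod_cast hb
  have hx0 : 0 < x := by rw [hx]; positivity
  have hP' : (0 : ℝ) < Fintype.card P := by exact_mod_cast hP
  set q : ℝ := (Fintype.card P : ℝ) with hq
  have hxq : x < q := by
    rw [hx, div_lt_iff₀ hb', mul_comm, hq]
    exact_mod_cast hab
  obtain ⟨A', hA1, hA2⟩ : ∃ A' : ℝ, x < θ * A' ∧ A' < AA R x y := by
    refine ⟨(x / θ + AA R x y) / 2, ?_, ?_⟩
    · have : θ * ((x / θ + AA R x y) / 2) = (x + θ * AA R x y) / 2 := by field_simp
      rw [this]
      linarith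
    · have : x / θ < AA R x y := by
        rw [div_lt_iff₀ hθ]
        linarith
      linarith
  have hA'0 : 0 < A' := by
    by_contra h
    rw [not_lt] at h
    nlinarith
  have e1 : ∀ᶠ h : ℕ in atTop, A' < AAh R x y h :=
    (tendsto_AAh R x y hx0 hy hP).eventually (lt_mem_nhds hA2)
  have e2 : ∀ᶠ h : ℕ in atTop,
      (1 + x * (1 + Real.log (q / x))) / (θ * A' - x) ≤ Real.log h :=
    (Real.tendsto_log_atTop.comp tendsto_natCast_atTop_atTop).eventually_ge_atTop _
  filter_upwards [e1, e2, eventually_ge_atTop 2] with h h1 h2 h3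
  have hh : 0 < h := by omega
  have hh' : (0 : ℝ) < h := by exact_mod_cast hh
  have hlogh : 0 < Real.log h := Real.log_pos (by exact_mod_cast (show 1 < h by omega))
  set D := ⌈θ * Real.log h⌉₊ with hD
  have hD1 : θ * Real.log h ≤ D := Nat.le_ceil _
  have hD0 : 0 < D := Nat.ceil_pos.2 (by positivity)
  have hD0' : (0 : ℝ) < D := by exact_mod_cast hD0
  have h4 : x * (1 + Real.log (q * h / x)) - D * AAh R x y h ≤ -1 := by
    have h5 : Real.log (q * h / x) = Real.log (q / x) + Real.log h := by
      rw [← Real.log_mul (by positivity) (by positivity)]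
      congr 1
      ring
    rw [div_le_iff₀ (by linarith)] at h2
    have h6 : θ * Real.log h * A' ≤ D * AAh R x y h :=
      mul_le_mul hD1 h1.le hA'0.le hD0'.le
    rw [h5]
    nlinarith
  -- now `M` is large
  have e3 : ∀ᶠ M : ℕ in atTop, D * Real.log ((a : ℝ) * M + 1) ≤ (b : ℝ) * M / 2 := by
    have h5 : Tendsto (fun M : ℕ => Real.log ((a : ℝ) * M + 1) / ((a : ℝ) * M + 1)) atTop
        (nhds 0) := by
      have h6 : Tendsto (fun z : ℝ => Real.log z / z) atTop (nhds 0) :=
        Real.isLittleO_log_id_atTop.tendsto_div_nhds_zero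
      refine h6.comp ?_
      exact tendsto_atTop_add_const_right _ _
        (tendsto_natCast_atTop_atTop.const_mul_atTop ha')
    have h7 : (0 : ℝ) < b / (4 * D * a) := by positivity
    filter_upwards [h5.eventually (gt_mem_nhds h7), eventually_ge_atTop 1] with M hM hM1
    have hM' : (1 : ℝ) ≤ M := by exact_mod_cast hM1
    have ha1 : (1 : ℝ) ≤ a := by exact_mod_cast ha
    have h8 : 0 < (a : ℝ) * M + 1 := by positivity
    rw [div_lt_iff₀ h8] at hM
    have h9 : (a : ℝ) * M + 1 ≤ 2 * (a * M) := by nlinarith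
    calc D * Real.log ((a : ℝ) * M + 1) ≤ D * (b / (4 * D * a) * (2 * (a * M))) := by
          refine mul_le_mul_of_nonneg_left (hM.le.trans ?_) hD0'.le
          exact mul_le_mul_of_nonneg_left h9 h7.le
      _ = (b : ℝ) * M / 2 := by field_simp; ring
  have e4 : ∀ᶠ M : ℕ in atTop, 2 * (Real.log 2 + D) ≤ (M : ℝ) :=
    tendsto_natCast_atTop_atTop.eventually_ge_atTop _
  filter_upwards [e3, e4, eventually_ge_atTop 1] with M h5 h6 h7
  have hM' : (1 : ℝ) ≤ M := by exact_mod_cast h7
  have hk : 0 < a * M := Nat.mul_pos ha h7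
  have hN : 0 < b * M := Nat.mul_pos hb h7
  have hkx : ((a * M : ℕ) : ℝ) = x * ((b * M : ℕ) : ℝ) := by
    rw [hx]
    push_cast
    field_simp
  have hkn : a * M ≤ b * M * (Fintype.card P * h) := by
    calc a * M ≤ (b * Fintype.card P) * M := Nat.mul_le_mul_right _ hab.le
      _ ≤ (b * Fintype.card P) * M * h := Nat.le_mul_of_pos_right _ hh
      _ = _ := by ring
  rcases Nat.eq_zero_or_pos (JJ R (b * M) h (a * M)).card with hJ | hJ
  · rw [hJ, zero_pow hD0.ne', mul_zero]
    exact Nat.zero_le _
  · have h8 := log_JJ_sub_le R hP (b * M) h (a * M) x y hx0 hy hN hh hkx hxq hJ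
    have h9 := log_choose_le _ _ hk hkn
    set C : ℕ := (b * M * (Fintype.card P * h)).choose (a * M) with hC
    have hC0 : 0 < C := Nat.choose_pos hkn
    have hC0' : (0 : ℝ) < C := by exact_mod_cast hC0
    have hJ' : (0 : ℝ) < (JJ R (b * M) h (a * M)).card := by exact_mod_cast hJ
    have h10 : ((2 * C * (JJ R (b * M) h (a * M)).card ^ D : ℕ) : ℝ) ≤ ((C ^ D : ℕ) : ℝ) := by
      push_cast
      rw [← Real.log_le_log_iff (by positivity) (by positivity), Real.log_mul (by positivity)
        (by positivity), Real.log_mul (by norm_num) hC0'.ne', Real.log_pow, Real.log_pow]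
      set LJ := Real.log ((JJ R (b * M) h (a * M)).card : ℝ) with hLJ
      set LC := Real.log (C : ℝ) with hLC
      have h11 : LC ≤ (b * M : ℕ) * (x * (1 + Real.log (q * h / x))) := by
        refine h9.trans (le_of_eq ?_)
        have h12 : Real.log (q * h / x) = Real.log ((b * M * (Fintype.card P * h) : ℕ) : ℝ) -
            Real.log ((a * M : ℕ) : ℝ) := by
          rw [← Real.log_div (by positivity) (by positivity)]
          congr 1
          rw [hx, hq]
          push_cast
          field_simp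
        rw [h12, hkx]
        ring
      have h13 := mul_le_mul_of_nonneg_left h8 hD0'.le
      have h14 := mul_le_mul_of_nonneg_left h4 (show (0 : ℝ) ≤ (b * M : ℕ) by positivity)
      have hb1 : (1 : ℝ) ≤ b := by exact_mod_cast hb
      have h15 : ((b * M : ℕ) : ℝ) = b * M := by push_cast; ring
      have h16 : ((a * M : ℕ) : ℝ) = a * M := by push_cast; ring
      rw [h15] at h11 h13 h14
      rw [h16] at h13
      have h17 : (M : ℝ) ≤ b * M := by nlinarith
      exact final_ineq D LJ LC (b * M) (AAh R x y h) (Real.log ((a : ℝ) * M + 1))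
        (x * (1 + Real.log (q * h / x))) M h13 h14 h11 h5 h6 h17
    exact_mod_cast h10

end Pool.Agent.H31.LB
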