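import Mathlib
import Pool.Agent.H31.LB.Exist
import Pool.Agent.H31.LB.Numeric

set_option autoImplicit false

/-!
# The lower bound for `c(F)`
-/

namespace Pool.Agent.H31.LB

open Finset Classical Filter
open scoped ENNReal NNReal

/-- `c(F, Δ)`: the supremum of `χ(G) / (Δ / log Δ)` over all finite `F`-free graphs `G` of maximum
degree `Δ` (it is `0` if there are none). -/
noncomputable def cAt {W : Type} (F : SimpleGraph W) (Δ : ℕ) : ℝ≥0∞ :=
  ⨆ (V : Type) (_ : Fintype V) (G : SimpleGraph V) (_ : F.Free G) (_ : G.maxDegree = Δ),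
    ENNReal.ofReal ((G.chromaticNumber.toNat : ℝ) / ((Δ : ℝ) / Real.log (Δ : ℝ)))

/-- `c(F) = limsup c(F, Δ) ∈ [0, ∞]` as `Δ → ∞`. -/
noncomputable def c {W : Type} (F : SimpleGraph W) : ℝ≥0∞ := limsup (cAt F) atTop

theorem greedy {V : Type} [Fintype V] (G : SimpleGraph V) (Δ : ℕ) (h : ∀ v, G.degree v ≤ Δ) :
    G.Colorable (Δ + 1) := by
  have key : ∀ S : Finset V, ∃ γ : V → Fin (Δ + 1), ∀ u ∈ S, ∀ v ∈ S, G.Adj u v → γ u ≠ γ v := by
    intro S
    induction S using Finset.induction_on with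
    | empty => exact ⟨fun _ => 0, fun u hu => absurd hu (notMem_empty u)⟩
    | insert v S hv ih =>
      obtain ⟨γ, hγ⟩ := ih
      have h1 : ((G.neighborFinset v).image γ).card < (univ : Finset (Fin (Δ + 1))).card := by
        rw [card_univ, Fintype.card_fin]
        refine lt_of_le_of_lt card_image_le ?_
        rw [SimpleGraph.card_neighborFinset_eq_degree]
        exact Nat.lt_succ_of_le (h v)
      obtain ⟨a, -, ha⟩ := exists_mem_notMem_of_card_lt_card h1
      have ha' : ∀ u, G.Adj v u → γ u ≠ a := by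
        intro u hu hua
        apply ha
        rw [mem_image]
        exact ⟨u, (SimpleGraph.mem_neighborFinset _ _ _).2 hu, hua⟩
      refine ⟨Function.update γ v a, ?_⟩
      intro u hu w hw huw
      have hne : u ≠ w := huw.ne
      by_cases h2 : u = v
      · subst h2
        rw [Function.update_self, Function.update_of_ne hne.symm]
        exact (ha' w huw).symm
      · by_cases h3 : w = v
        · subst h3
          rw [Function.update_self, Function.update_of_ne hne]
          exact ha' u huw.symm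
        · rw [Function.update_of_ne h2, Function.update_of_ne h3]
          exact hγ u (mem_of_mem_insert_of_ne hu h2) w (mem_of_mem_insert_of_ne hw h3) huw
  obtain ⟨γ, hγ⟩ := key univ
  exact ⟨SimpleGraph.Coloring.mk γ (fun {u v} huv => hγ u (mem_univ _) v (mem_univ _) huv)⟩

theorem mono_div_log {a b : ℝ} (ha : 3 ≤ a) (hab : a ≤ b) : a / Real.log a ≤ b / Real.log b := by
  have he : Real.exp 1 ≤ 3 := Real.exp_one_lt_three.le
  have h := Real.log_div_self_antitoneOn (show Real.exp 1 ≤ a by linarith)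
    (show Real.exp 1 ≤ b by linarith) hab
  simp only at h
  have hla : 0 < Real.log a := Real.log_pos (by linarith)
  have hlb : 0 < Real.log b := Real.log_pos (by linarith)
  rw [div_le_div_iff₀ (by linarith) (by linarith)] at h
  rw [div_le_div_iff₀ hla hlb]
  linarith

/-- the final estimate -/
theorem final_estimate (q x d θ L h D Δ χ : ℝ) (hx : 0 < x) (hd : 1 ≤ d)
    (hθ : 0 < θ) (hL : 0 < L) (hh : 1 < h) (hD : 1 ≤ D) (hD2 : D ≤ θ * Real.log h + 1)
    (hΔ3 : 3 ≤ Δ) (hΔ : Δ ≤ D * (d * h)) (hχ : q * h / x - 1 ≤ χ)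
    (hLh : L ≤ (q / x - 1 / h) / (d * (θ + 1 / Real.log h))) :
    L ≤ χ / (Δ / Real.log Δ) := by
  have hlogh : 0 < Real.log h := Real.log_pos hh
  have hh0 : 0 < h := by linarith
  have hd0 : 0 < d := by linarith
  have hΔlog : 0 < Δ / Real.log Δ := div_pos (by linarith) (Real.log_pos (by linarith))
  rw [le_div_iff₀ hΔlog]
  have h1 := mono_div_log hΔ3 hΔ
  have hT : h ≤ D * (d * h) := by
    have : 1 ≤ D * d := one_le_mul_of_one_le_of_one_le hD hd
    nlinarith
  have h2 : D * (d * h) / Real.log (D * (d * h)) ≤ D * (d * h) / Real.log h :=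
    div_le_div_of_nonneg_left (by positivity) hlogh (Real.log_le_log hh0 hT)
  have h3 : D * (d * h) / Real.log h ≤ (θ * Real.log h + 1) * (d * h) / Real.log h := by
    refine div_le_div_of_nonneg_right ?_ hlogh.le
    exact mul_le_mul_of_nonneg_right hD2 (by positivity)
  have h4 : (θ * Real.log h + 1) * (d * h) / Real.log h = h * (d * (θ + 1 / Real.log h)) := by
    field_simp
  rw [h4] at h3
  have h5 : L * (d * (θ + 1 / Real.log h)) ≤ q / x - 1 / h := by
    rwa [le_div_iff₀ (by positivity)] at hLh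
  calc L * (Δ / Real.log Δ) ≤ L * (h * (d * (θ + 1 / Real.log h))) :=
        mul_le_mul_of_nonneg_left (h1.trans (h2.trans h3)) hL.le
    _ = h * (L * (d * (θ + 1 / Real.log h))) := by ring
    _ ≤ h * (q / x - 1 / h) := mul_le_mul_of_nonneg_left h5 hh0.le
    _ = q * h / x - 1 := by field_simp
    _ ≤ χ := hχ

/-- graphs of large maximum degree and large chromatic number all of whose small subgraphs map
homomorphically to `R` -/
theorem exists_local {P : Type} [Fintype P] [Inhabited P] (R : SimpleGraph P)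
    (hR : ∀ p p' : P, ∃ σ : R ≃g R, σ p = p') {d : ℕ} (hd0 : 0 < d) (hd : ∀ p, R.degree p ≤ d)
    (a b : ℕ) (ha : 0 < a) (hb : 0 < b) (hab : a < b * Fintype.card P)
    (y θ L : ℝ) (hy : 0 < y) (hθ : 0 < θ) (hL : 0 < L)
    (hA : (a / b : ℝ) < θ * AA R (a / b) y)
    (hL2 : L < (Fintype.card P / (a / b : ℝ)) / (d * θ)) (f Δ₀ : ℕ) :
    ∃ (V : Type) (_ : Fintype V) (G : SimpleGraph V), Δ₀ ≤ G.maxDegree ∧ 3 ≤ G.maxDegree ∧
      (∀ S : Finset V, S.card ≤ f → ∃ φ : V → P, ∀ u ∈ S, ∀ v ∈ S, G.Adj u v →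
        R.Adj (φ u) (φ v)) ∧
      L ≤ (G.chromaticNumber.toNat : ℝ) / ((G.maxDegree : ℝ) / Real.log G.maxDegree) := by
  have hP : 0 < Fintype.card P := Fintype.card_pos
  have ha' : (0 : ℝ) < a := by exact_mod_cast ha
  have hb' : (0 : ℝ) < b := by exact_mod_cast hb
  have hx0 : (0 : ℝ) < a / b := by positivity
  have hd1 : (1 : ℝ) ≤ d := by exact_mod_cast hd0
  have hd' : (0 : ℝ) < d := by linarith
  have hP' : (0 : ℝ) < Fintype.card P := by exact_mod_cast hP
  have e1 := eventually_first_moment R hP a b ha hb hab y θ hy hθ hA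
  have e2 : ∀ᶠ h : ℕ in atTop, L < (Fintype.card P / (a / b : ℝ) - 1 / (h : ℝ)) /
      (d * (θ + 1 / Real.log h)) := by
    have h1 : Tendsto (fun h : ℕ => 1 / (h : ℝ)) atTop (nhds 0) :=
      tendsto_one_div_atTop_nhds_zero_nat
    have h2 : Tendsto (fun h : ℕ => 1 / Real.log (h : ℝ)) atTop (nhds 0) :=
      tendsto_const_nhds.div_atTop (Real.tendsto_log_atTop.comp tendsto_natCast_atTop_atTop)
    have h3 : Tendsto (fun h : ℕ => (Fintype.card P / (a / b : ℝ) - 1 / (h : ℝ)) /
      (d * (θ + 1 / Real.log h))) atTop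
        (nhds ((Fintype.card P / (a / b : ℝ) - 0) / (d * (θ + 0)))) := by
      refine (tendsto_const_nhds.sub h1).div ((tendsto_const_nhds.add h2).const_mul _) ?_
      rw [add_zero]
      positivity
    rw [sub_zero, add_zero] at h3
    exact h3.eventually (lt_mem_nhds hL2)
  have e3 : ∀ᶠ h : ℕ in atTop,
      ((max Δ₀ 3 : ℕ) : ℝ) + 3 ≤ (Fintype.card P / (a / b : ℝ)) * h :=
    (tendsto_natCast_atTop_atTop.const_mul_atTop (by positivity)).eventually_ge_atTop _
  obtain ⟨h, h1, h2, h3, h4⟩ := (e1.and (e2.and (e3.and (eventually_ge_atTop 2)))).exists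
  have hh' : (1 : ℝ) < h := by exact_mod_cast (show 1 < h by omega)
  have hlogh : 0 < Real.log h := Real.log_pos hh'
  set D := ⌈θ * Real.log h⌉₊ with hD
  have hD0 : 0 < D := Nat.ceil_pos.2 (by positivity)
  have hD2 : (D : ℝ) ≤ θ * Real.log h + 1 := (Nat.ceil_lt_add_one (by positivity)).le
  have e4 : ∀ᶠ M : ℕ in atTop,
      ((2 * KB D (Fintype.card P * h) f : ℕ) : ℝ) ≤ a * M :=
    (tendsto_natCast_atTop_atTop.const_mul_atTop ha').eventually_ge_atTop _
  obtain ⟨M, h5, h6, h7, h8⟩ := (h1.and (e4.and ((eventually_ge_atTop 1).and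
    (eventually_ge_atTop (2 * f))))).exists
  have hM' : (1 : ℝ) ≤ M := by exact_mod_cast h7
  have hkn : a * M ≤ b * M * (Fintype.card P * h) := by
    calc a * M ≤ (b * Fintype.card P) * M := Nat.mul_le_mul_right _ hab.le
      _ ≤ (b * Fintype.card P) * M * h := Nat.le_mul_of_pos_right _ (by omega)
      _ = _ := by ring
  have hf : 2 * f ≤ b * M * (Fintype.card P * h) := by
    calc 2 * f ≤ M := h8
      _ ≤ M * (b * (Fintype.card P * h)) := Nat.le_mul_of_pos_right _ (by positivity)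
      _ = _ := by ring
  obtain ⟨V, _, G, hG1, hG2, hG3⟩ := exists_graph R hR hd (Nat.mul_pos hb h7) (by omega) hD0
    hf hkn h5
  have hcol : G.Colorable G.chromaticNumber.toNat :=
    SimpleGraph.colorable_chromaticNumber_of_fintype G
  have h9 := hG3 _ hcol
  have h10 : ((b * M * (Fintype.card P * h) : ℕ) : ℝ) ≤
      ((G.chromaticNumber.toNat * (a * M) +
        2 * KB D (Fintype.card P * h) f : ℕ) : ℝ) := by exact_mod_cast h9
  have h11 : (Fintype.card P : ℝ) * h / (a / b : ℝ) - 1 ≤ (G.chromaticNumber.toNat : ℝ) := by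
    rw [Nat.cast_add (G.chromaticNumber.toNat * (a * M))] at h10
    have h12 : ((b * M * (Fintype.card P * h) : ℕ) : ℝ) = b * M * (Fintype.card P * h) := by
      push_cast
      ring
    have h13 : ((G.chromaticNumber.toNat * (a * M) : ℕ) : ℝ) =
        G.chromaticNumber.toNat * (a * M) := by
      push_cast
      ring
    rw [h12, h13] at h10
    have haM : (0 : ℝ) < a * M := by positivity
    have h14 : (Fintype.card P : ℝ) * h / (a / b : ℝ) =
        (b * M * (Fintype.card P * h)) / (a * M) := by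
      field_simp
    rw [h14, sub_le_iff_le_add, div_le_iff₀ haM]
    linarith
  have h12 : ∀ v, G.degree v ≤ G.maxDegree := fun v => G.degree_le_maxDegree v
  have h13 : G.chromaticNumber.toNat ≤ G.maxDegree + 1 :=
    ENat.toNat_le_of_le_natCast (greedy G _ h12).chromaticNumber_le
  have h14 : (G.chromaticNumber.toNat : ℝ) ≤ (G.maxDegree : ℝ) + 1 := by exact_mod_cast h13
  have h15 : ((max Δ₀ 3 : ℕ) : ℝ) ≤ (G.maxDegree : ℝ) := by
    have h16 : (Fintype.card P : ℝ) * h / (a / b : ℝ) = (Fintype.card P / (a / b : ℝ)) * h := by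
      ring
    rw [h16] at h11
    linarith
  have h16 : max Δ₀ 3 ≤ G.maxDegree := by exact_mod_cast h15
  refine ⟨V, inferInstance, G, (le_max_left _ _).trans h16, (le_max_right _ _).trans h16, hG1, ?_⟩
  refine final_estimate (Fintype.card P) (a / b) d θ L h D G.maxDegree _ hx0 hd1 hθ hL hh'
    (by exact_mod_cast hD0) hD2 ?_ ?_ h11 h2.le
  · exact_mod_cast (le_max_right Δ₀ 3).trans h16
  · have h18 : G.maxDegree ≤ D * (d * h) := G.maxDegree_le_of_forall_degree_le _ hG2
    exact_mod_cast h18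

/-- **Main lower bound, local form.**  `R` is a vertex-transitive graph of degree at most `d`. -/
theorem exists_local' {P : Type} [Fintype P] [Inhabited P] (R : SimpleGraph P)
    (hR : ∀ p p' : P, ∃ σ : R ≃g R, σ p = p') {d : ℕ} (hd0 : 0 < d) (hd : ∀ p, R.degree p ≤ d)
    (a b : ℕ) (ha : 0 < a) (hb : 0 < b) (hab : a < b * Fintype.card P) (y : ℝ) (hy : 0 < y)
    (L : ℝ) (hLpos : 0 < L)
    (hL' : L < Fintype.card P * AA R (a / b) y / (d * (a / b : ℝ) ^ 2)) (f Δ₀ : ℕ) :
    ∃ (V : Type) (_ : Fintype V) (G : SimpleGraph V), Δ₀ ≤ G.maxDegree ∧ 3 ≤ G.maxDegree ∧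
      (∀ S : Finset V, S.card ≤ f → ∃ φ : V → P, ∀ u ∈ S, ∀ v ∈ S, G.Adj u v →
        R.Adj (φ u) (φ v)) ∧
      L ≤ (G.chromaticNumber.toNat : ℝ) / ((G.maxDegree : ℝ) / Real.log G.maxDegree) := by
  have ha' : (0 : ℝ) < a := by exact_mod_cast ha
  have hb' : (0 : ℝ) < b := by exact_mod_cast hb
  have hx0 : (0 : ℝ) < a / b := by positivity
  have hd' : (0 : ℝ) < d := by exact_mod_cast hd0
  have hP' : (0 : ℝ) < Fintype.card P := by exact_mod_cast Fintype.card_pos
  have hA0 : 0 < AA R (a / b) y := by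
    by_contra hle
    rw [not_lt] at hle
    have : (Fintype.card P : ℝ) * AA R (a / b) y / (d * (a / b : ℝ) ^ 2) ≤ 0 := by
      apply div_nonpos_of_nonpos_of_nonneg
      · exact mul_nonpos_of_nonneg_of_nonpos hP'.le hle
      · positivity
    linarith
  obtain ⟨θ, hθ1, hθ2⟩ : ∃ θ : ℝ, (a / b : ℝ) / AA R (a / b) y < θ ∧
      θ < (Fintype.card P / (a / b : ℝ)) / (d * L) := by
    refine exists_between ?_
    rw [lt_div_iff₀ (by positivity)] at hL'
    rw [div_lt_div_iff₀ hA0 (by positivity)]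
    calc (a / b : ℝ) * (d * L) = (L * (d * (a / b : ℝ) ^ 2)) / (a / b) := by field_simp
      _ < (Fintype.card P * AA R (a / b) y) / (a / b) := div_lt_div_of_pos_right hL' hx0
      _ = _ := by ring
  have hθ0 : 0 < θ := lt_trans (by positivity) hθ1
  have h1 : (a / b : ℝ) < θ * AA R (a / b) y := by rwa [div_lt_iff₀ hA0] at hθ1
  have h2 : (L : ℝ) < (Fintype.card P / (a / b : ℝ)) / (d * θ) := by
    rw [lt_div_iff₀ (by positivity)] at hθ2 ⊢
    calc (L : ℝ) * (d * θ) = θ * (d * L) := by ring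
      _ < _ := hθ2
  exact exists_local R hR hd0 hd a b ha hb hab y θ L hy hθ0 hLpos h1 h2 f Δ₀

/-- **Main lower bound.**  `R` is a vertex-transitive graph of degree at most `d` to which `F` has
no homomorphism. -/
theorem le_c {P : Type} [Fintype P] [Inhabited P] (R : SimpleGraph P)
    (hR : ∀ p p' : P, ∃ σ : R ≃g R, σ p = p') {d : ℕ} (hd0 : 0 < d) (hd : ∀ p, R.degree p ≤ d)
    {W : Type} [Fintype W] (F : SimpleGraph W) (hF : IsEmpty (F →g R))
    (a b : ℕ) (ha : 0 < a) (hb : 0 < b) (hab : a < b * Fintype.card P) (y : ℝ) (hy : 0 < y) :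
    ENNReal.ofReal (Fintype.card P * AA R (a / b) y / (d * (a / b : ℝ) ^ 2)) ≤ c F := by
  refine ENNReal.le_of_forall_nnreal_lt fun L hL => ?_
  rcases eq_or_ne L 0 with rfl | hL0
  · simp
  have hLpos : (0 : ℝ) < L := by
    have := L.2
    exact lt_of_le_of_ne this (fun h => hL0 (NNReal.eq h.symm))
  have hL' : (L : ℝ) < Fintype.card P * AA R (a / b) y / (d * (a / b : ℝ) ^ 2) := by
    rw [← ENNReal.ofReal_coe_nnreal,
      ENNReal.ofReal_lt_ofReal_iff_of_nonneg (NNReal.coe_nonneg L)] at hL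
    exact hL
  have h3 : ∃ᶠ Δ in atTop, (L : ℝ≥0∞) ≤ cAt F Δ := by
    rw [frequently_atTop]
    intro Δ₀
    obtain ⟨V, _, G, h1, -, h2, h3⟩ := exists_local' R hR hd0 hd a b ha hb hab y hy L hLpos hL'
      (Fintype.card W) Δ₀
    refine ⟨G.maxDegree, h1, ?_⟩
    unfold cAt
    refine le_iSup_of_le V ?_
    refine le_iSup_of_le inferInstance ?_
    refine le_iSup_of_le G ?_
    refine le_iSup_of_le (free_of_local R F hF G le_rfl h2) ?_
    refine le_iSup_of_le rfl ?_
    rw [← ENNReal.ofReal_coe_nnreal]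
    exact ENNReal.ofReal_le_ofReal h3
  exact le_limsup_of_frequently_le h3 (by isBoundedDefault)

end Pool.Agent.H31.LB
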