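import Mathlib
import Pool.Agent.H31.LB.Main

set_option autoImplicit false

/-!
# The construction for an arbitrary template graph `R`, and cliques
-/

namespace Pool.Agent.H31.LB

open Finset Classical Filter
open scoped ENNReal NNReal

/-- `S` has no bad subset -/
def Good {N D : ℕ} {M : Type} (π : Fin D → Equiv.Perm (Fin N × M)) (S : Finset (Fin N × M)) :
    Prop :=
  ∀ S' ⊆ S, S'.Nonempty → S'.card * (D - 1) < ∑ i, (S'.image (fun v => (π i v).1)).card

theorem Good.mono {N D : ℕ} {M : Type} {π : Fin D → Equiv.Perm (Fin N × M)}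
    {S T : Finset (Fin N × M)} (h : Good π T) (hST : S ⊆ T) : Good π S :=
  fun S' hS' hne => h S' (hS'.trans hST) hne

/-- two vertices of a good set share a block in at most one class -/
theorem Good.pair {N D : ℕ} {M : Type} (hD : 0 < D) {π : Fin D → Equiv.Perm (Fin N × M)}
    {S : Finset (Fin N × M)} (h : Good π S) {u v : Fin N × M} (hu : u ∈ S) (hv : v ∈ S)
    (huv : u ≠ v) {i j : Fin D} (hi : (π i u).1 = (π i v).1) (hj : (π j u).1 = (π j v).1) :
    i = j := by
  have hsub : ({u, v} : Finset (Fin N × M)) ⊆ S := by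
    intro x hx
    rw [mem_insert, mem_singleton] at hx
    rcases hx with rfl | rfl
    · exact hu
    · exact hv
  obtain ⟨w, hw, k, hk⟩ := exists_leaf hD (fun i v => (π i v).1) {u, v}
    (h _ hsub ⟨u, mem_insert_self _ _⟩)
  have key : ∀ l : Fin D, (π l u).1 = (π l v).1 → l = k := by
    intro l hl
    by_contra hne
    rw [mem_insert, mem_singleton] at hw
    rcases hw with rfl | rfl
    · exact hk l hne v (by simp) huv.symm hl.symm
    · exact hk l hne u (by simp) huv hl
  rw [key i hi, key j hj]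

/-- three vertices of a good set which pairwise share blocks lie in one block -/
theorem Good.triple {N D : ℕ} {M : Type} (hD : 0 < D) {π : Fin D → Equiv.Perm (Fin N × M)}
    {S : Finset (Fin N × M)} (h : Good π S) {u v w : Fin N × M} (hu : u ∈ S) (hv : v ∈ S)
    (hw : w ∈ S) (huv : u ≠ v) (huw : u ≠ w) (hvw : v ≠ w) {i j l : Fin D}
    (hi : (π i u).1 = (π i v).1) (hj : (π j u).1 = (π j w).1) (hl : (π l v).1 = (π l w).1) :
    (π i w).1 = (π i u).1 := by
  have hsub : ({u, v, w} : Finset (Fin N × M)) ⊆ S := by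
    intro x hx
    rw [mem_insert, mem_insert, mem_singleton] at hx
    rcases hx with rfl | rfl | rfl
    · exact hu
    · exact hv
    · exact hw
  obtain ⟨z, hz, k, hk⟩ := exists_leaf hD (fun i v => (π i v).1) {u, v, w}
    (h _ hsub ⟨u, mem_insert_self _ _⟩)
  have hk' : ∀ m : Fin D, ∀ x ∈ ({u, v, w} : Finset (Fin N × M)), x ≠ z →
      (π m x).1 = (π m z).1 → m = k := by
    intro m x hx hxz hm
    by_contra hne
    exact hk m hne x hx hxz hm
  rw [mem_insert, mem_insert, mem_singleton] at hz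
  rcases hz with rfl | rfl | rfl
  · -- the leaf is `u`
    have h1 := hk' i v (by simp) huv.symm hi.symm
    have h2 := hk' j w (by simp) huw.symm hj.symm
    rw [h1, ← h2]
    exact hj.symm
  · -- the leaf is `v`
    have h1 := hk' i u (by simp) huv hi
    have h2 := hk' l w (by simp) hvw.symm hl.symm
    rw [hi, h1, ← h2]
    exact hl.symm
  · -- the leaf is `w`
    have h1 := hk' j u (by simp) huw hj
    have h2 := hk' l v (by simp) hvw hl
    -- `u`, `v`, `w` share the class `k`
    have h3 : (π k u).1 = (π k v).1 := by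
      rw [← h1, hj, h1, ← h2]
      exact hl.symm
    have h4 := h.pair hD hu hv huv hi h3
    rw [h4, ← h1]
    exact hj.symm

/-- a good clique lies in one block, so its types form a clique of `R` -/
theorem Good.clique {P : Type} {N h D : ℕ} (hD : 0 < D) (R : SimpleGraph P)
    {π : Fin D → Equiv.Perm (Fin N × (P × Fin h))} {S : Finset (Fin N × (P × Fin h))}
    (hS : Good π S) (hcl : ∀ u ∈ S, ∀ v ∈ S, u ≠ v → (GG R π).Adj u v) {r : ℕ}
    (hr : 2 ≤ S.card) (hR : R.CliqueFree r) : S.card < r := by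
  obtain ⟨u₀, hu₀, v₀, hv₀, hne⟩ := one_lt_card.1 (show 1 < S.card by omega)
  obtain ⟨i, hi, -⟩ := hcl u₀ hu₀ v₀ hv₀ hne
  have hall : ∀ w ∈ S, (π i w).1 = (π i u₀).1 := by
    intro w hw
    by_cases h1 : w = u₀
    · rw [h1]
    · by_cases h2 : w = v₀
      · rw [h2, hi]
      · obtain ⟨j, hj, -⟩ := hcl u₀ hu₀ w hw (Ne.symm h1)
        obtain ⟨l, hl, -⟩ := hcl v₀ hv₀ w hw (Ne.symm h2)
        exact hS.triple hD hu₀ hv₀ hw hne (Ne.symm h1) (Ne.symm h2) hi hj hl
  have hadj : ∀ u ∈ S, ∀ v ∈ S, u ≠ v → R.Adj (π i u).2.1 (π i v).2.1 := by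
    intro u hu v hv huv
    obtain ⟨j, hj, hj'⟩ := hcl u hu v hv huv
    have h1 := hS.pair hD hu hv huv ((hall u hu).trans (hall v hv).symm) hj
    rw [h1]
    exact hj'
  by_contra hcon
  rw [not_lt] at hcon
  obtain ⟨T, hT, hTc⟩ := exists_subset_card_eq hcon
  refine hR (T.image (fun v => (π i v).2.1)) ?_
  rw [SimpleGraph.isNClique_iff]
  constructor
  · intro a ha b hb hab
    rw [mem_coe, mem_image] at ha hb
    obtain ⟨u, hu, rfl⟩ := ha
    obtain ⟨v, hv, rfl⟩ := hb
    exact hadj u (hT hu) v (hT hv) (fun h => hab (by rw [h]))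
  · rw [card_image_of_injOn, hTc]
    intro u hu v hv huv
    by_contra hne'
    have := hadj u (hT (mem_coe.1 hu)) v (hT (mem_coe.1 hv)) hne'
    simp only at huv
    rw [huv] at this
    exact this.ne rfl

/-- the graph with the chosen vertices removed -/
theorem exists_graph_gen {P : Type} [Fintype P] [Inhabited P] (R : SimpleGraph P)
    {d : ℕ} (hd : ∀ p, R.degree p ≤ d)
    {N h k D f : ℕ} (hN : 0 < N) (hh : 0 < h) (hD : 0 < D)
    (hf : 2 * f ≤ N * (Fintype.card P * h))
    (hk : k ≤ N * (Fintype.card P * h))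
    (hX : 2 * (N * (Fintype.card P * h)).choose k * (JJ R N h k).card ^ D ≤
      ((N * (Fintype.card P * h)).choose k) ^ D) :
    ∃ (π : Fin D → Equiv.Perm (Fin N × (P × Fin h))) (X : Finset (Fin N × (P × Fin h))),
      (∀ S : Finset (Fin N × (P × Fin h)), S.card ≤ f → (∀ v ∈ S, v ∉ X) → Good π S) ∧
      (∀ v, ((GG R π).comap (fun v : {v // v ∉ X} => v.1)).degree v ≤ D * (d * h)) ∧
      ∀ c, ((GG R π).comap (fun v : {v // v ∉ X} => v.1)).Colorable c →
        N * (Fintype.card P * h) ≤ c * k + 2 * KB D (Fintype.card P * h) f := by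
  obtain ⟨π, hπ1, hπ2⟩ := exists_family R hN hD hf hk hX
  have hch : ∀ S : Finset (Fin N × (P × Fin h)), ∃ x, S.Nonempty → x ∈ S := by
    intro S
    by_cases hS : S.Nonempty
    · obtain ⟨x, hx⟩ := hS
      exact ⟨x, fun _ => hx⟩
    · exact ⟨(⟨0, hN⟩, default, ⟨0, hh⟩), fun h => absurd h hS⟩
  choose ch hch using hch
  set B := univ.filter (fun S : Finset (Fin N × (P × Fin h)) =>
        S.Nonempty ∧ S.card ≤ f ∧ Bad π S) with hB
  set X := B.image ch with hXdef
  refine ⟨π, X, ?_, ?_, ?_⟩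
  · intro S hS hSX S' hS' hne
    by_contra hle
    rw [not_lt] at hle
    have h1 : S' ∈ B := by
      rw [hB, mem_filter]
      exact ⟨mem_univ _, hne, (card_le_card hS').trans hS, hle⟩
    have h2 : ch S' ∈ X := mem_image_of_mem _ h1
    exact hSX _ (hS' (hch S' hne)) h2
  · intro v
    refine le_trans ?_ (degree_le R hd π v.1)
    rw [← SimpleGraph.card_neighborFinset_eq_degree, ← SimpleGraph.card_neighborFinset_eq_degree]
    refine card_le_card_of_injOn (fun u => u.1) ?_ (fun _ _ _ _ h => Subtype.ext h)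
    intro u hu
    have hu' := (SimpleGraph.mem_neighborFinset _ _ _).1 (mem_coe.1 hu)
    exact mem_coe.2 ((SimpleGraph.mem_neighborFinset _ _ _).2 hu')
  · intro c hc
    obtain ⟨C⟩ := hc
    have h1 : Fintype.card {v // v ∉ X} + X.card = N * (Fintype.card P * h) := by
      rw [Fintype.card_subtype_compl, Fintype.card_coe]
      have h2 : Fintype.card (Fin N × (P × Fin h)) = N * (Fintype.card P * h) := by
        rw [Fintype.card_prod, Fintype.card_prod, Fintype.card_fin, Fintype.card_fin]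
      have h3 : X.card ≤ Fintype.card (Fin N × (P × Fin h)) := card_le_univ _
      omega
    have h2 : X.card ≤ 2 * KB D (Fintype.card P * h) f := card_image_le.trans hπ2
    have h3 : Fintype.card {v // v ∉ X} ≤ c * k := by
      rw [← card_univ, card_eq_sum_card_fiberwise (f := C) (t := (univ : Finset (Fin c)))
        (fun _ _ => mem_univ _)]
      calc ∑ b : Fin c, (univ.filter (fun v => C v = b)).card ≤ ∑ _b : Fin c, k := by
            refine sum_le_sum fun b _ => ?_
            by_contra hlt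
            rw [not_le] at hlt
            obtain ⟨I, hI, hIc⟩ := exists_subset_card_eq hlt.le
            obtain ⟨u, hu, v, hv, huv⟩ := hπ1 (I.map (Function.Embedding.subtype _))
              (by rw [card_map]; exact hIc)
            rw [Finset.mem_map] at hu hv
            obtain ⟨u', hu', rfl⟩ := hu
            obtain ⟨v', hv', rfl⟩ := hv
            have h4 := (mem_filter.1 (hI hu')).2
            have h5 := (mem_filter.1 (hI hv')).2
            exact C.valid huv (h4.trans h5.symm)
        _ = c * k := by rw [sum_const, card_univ, Fintype.card_fin, smul_eq_mul]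
    omega

/-- graphs of large maximum degree and large chromatic number with few small cliques: `R` has no
clique of `r` vertices -/
theorem exists_clique {P : Type} [Fintype P] [Inhabited P] (R : SimpleGraph P) {r : ℕ}
    (hr : 2 ≤ r) (hR : R.CliqueFree r) {d : ℕ} (hd0 : 0 < d) (hd : ∀ p, R.degree p ≤ d)
    (a b : ℕ) (ha : 0 < a) (hb : 0 < b) (hab : a < b * Fintype.card P)
    (y θ L : ℝ) (hy : 0 < y) (hθ : 0 < θ) (hL : 0 < L)
    (hA : (a / b : ℝ) < θ * AA R (a / b) y)
    (hL2 : L < (Fintype.card P / (a / b : ℝ)) / (d * θ)) (Δ₀ : ℕ) :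
    ∃ (V : Type) (_ : Fintype V) (G : SimpleGraph V), Δ₀ ≤ G.maxDegree ∧ 3 ≤ G.maxDegree ∧
      G.CliqueFree r ∧
      L ≤ (G.chromaticNumber.toNat : ℝ) / ((G.maxDegree : ℝ) / Real.log G.maxDegree) := by
  have hP : 0 < Fintype.card P := Fintype.card_pos
  have ha' : (0 : ℝ) < a := by exact_mod_cast ha
  have hb' : (0 : ℝ) < b := by exact_mod_cast hb
  have hx0 : (0 : ℝ) < a / b := by positivity
  have hd1 : (1 : ℝ) ≤ d := by exact_mod_cast hd0
  have hd' : (0 : ℝ) < d := by linarith
  have hP' : (0 : ℝ) < Fintype.card P := by exact_mod_cast hP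
  have e1 := eventually_first_moment R hP a b ha hb hab y θ hy hθ hA
  have e2 : ∀ᶠ h : ℕ in atTop, L < (Fintype.card P / (a / b : ℝ) - 1 / (h : ℝ)) /
      (d * (θ + 1 / Real.log h)) := by
    have h1 : Tendsto (fun h : ℕ => 1 / (h : ℝ)) atTop (nhds 0) :=
      tendsto_one_div_atTop_nhds_zero_nat
    have h2 : Tendsto (fun h : ℕ => 1 / Real.log (h : ℝ)) atTop (nhds 0) :=
      tendsto_const_nhds.div_atTop (Real.tendsto_log_atTop.comp tendsto_natCast_atTop_atTop)
    have h3 : Tendsto (fun h : ℕ => (Fintype.card P / (a / b : ℝ) - 1 / (h : ℝ)) /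
      (d * (θ + 1 / Real.log h))) atTop
        (nhds ((Fintype.card P / (a / b : ℝ) - 0) / (d * (θ + 0)))) := by
      refine (tendsto_const_nhds.sub h1).div ((tendsto_const_nhds.add h2).const_mul _) ?_
      rw [add_zero]
      positivity
    rw [sub_zero, add_zero] at h3
    exact h3.eventually (lt_mem_nhds hL2)
  have e3 : ∀ᶠ h : ℕ in atTop,
      ((max Δ₀ 3 : ℕ) : ℝ) + 3 ≤ (Fintype.card P / (a / b : ℝ)) * h :=
    (tendsto_natCast_atTop_atTop.const_mul_atTop (by positivity)).eventually_ge_atTop _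
  obtain ⟨h, h1, h2, h3, h4⟩ := (e1.and (e2.and (e3.and (eventually_ge_atTop 2)))).exists
  have hh' : (1 : ℝ) < h := by exact_mod_cast (show 1 < h by omega)
  have hlogh : 0 < Real.log h := Real.log_pos hh'
  set D := ⌈θ * Real.log h⌉₊ with hD
  have hD0 : 0 < D := Nat.ceil_pos.2 (by positivity)
  have hD2 : (D : ℝ) ≤ θ * Real.log h + 1 := (Nat.ceil_lt_add_one (by positivity)).le
  have e4 : ∀ᶠ M : ℕ in atTop,
      ((2 * KB D (Fintype.card P * h) r : ℕ) : ℝ) ≤ a * M :=
    (tendsto_natCast_atTop_atTop.const_mul_atTop ha').eventually_ge_atTop _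
  obtain ⟨M, h5, h6, h7, h8⟩ := (h1.and (e4.and ((eventually_ge_atTop 1).and
    (eventually_ge_atTop (2 * r))))).exists
  have hM' : (1 : ℝ) ≤ M := by exact_mod_cast h7
  have hkn : a * M ≤ b * M * (Fintype.card P * h) := by
    calc a * M ≤ (b * Fintype.card P) * M := Nat.mul_le_mul_right _ hab.le
      _ ≤ (b * Fintype.card P) * M * h := Nat.le_mul_of_pos_right _ (by omega)
      _ = _ := by ring
  have hf : 2 * r ≤ b * M * (Fintype.card P * h) := by
    calc 2 * r ≤ M := h8
      _ ≤ M * (b * (Fintype.card P * h)) := Nat.le_mul_of_pos_right _ (by positivity)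
      _ = _ := by ring
  obtain ⟨π, X, hG1, hG2, hG3⟩ := exists_graph_gen R hd (Nat.mul_pos hb h7) (by omega) hD0
    hf hkn h5
  set G := (GG R π).comap (fun v : {v // v ∉ X} => v.1) with hG
  have hcol : G.Colorable G.chromaticNumber.toNat :=
    SimpleGraph.colorable_chromaticNumber_of_fintype G
  have h9 := hG3 _ hcol
  have h10 : ((b * M * (Fintype.card P * h) : ℕ) : ℝ) ≤
      ((G.chromaticNumber.toNat * (a * M) +
        2 * KB D (Fintype.card P * h) r : ℕ) : ℝ) := by exact_mod_cast h9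
  have h11 : (Fintype.card P : ℝ) * h / (a / b : ℝ) - 1 ≤ (G.chromaticNumber.toNat : ℝ) := by
    rw [Nat.cast_add (G.chromaticNumber.toNat * (a * M))] at h10
    have h12 : ((b * M * (Fintype.card P * h) : ℕ) : ℝ) = b * M * (Fintype.card P * h) := by
      push_cast
      ring
    have h13 : ((G.chromaticNumber.toNat * (a * M) : ℕ) : ℝ) =
        G.chromaticNumber.toNat * (a * M) := by
      push_cast
      ring
    rw [h12, h13] at h10
    have haM : (0 : ℝ) < a * M := by positivity
    have h14 : (Fintype.card P : ℝ) * h / (a / b : ℝ) =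
        (b * M * (Fintype.card P * h)) / (a * M) := by
      field_simp
    rw [h14, sub_le_iff_le_add, div_le_iff₀ haM]
    linarith
  have h12 : ∀ v, G.degree v ≤ G.maxDegree := fun v => G.degree_le_maxDegree v
  have h13 : G.chromaticNumber.toNat ≤ G.maxDegree + 1 :=
    ENat.toNat_le_of_le_natCast (greedy G _ h12).chromaticNumber_le
  have h14 : (G.chromaticNumber.toNat : ℝ) ≤ (G.maxDegree : ℝ) + 1 := by exact_mod_cast h13
  have h15 : ((max Δ₀ 3 : ℕ) : ℝ) ≤ (G.maxDegree : ℝ) := by
    have h16 : (Fintype.card P : ℝ) * h / (a / b : ℝ) = (Fintype.card P / (a / b : ℝ)) * h := by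
      ring
    rw [h16] at h11
    linarith
  have h16 : max Δ₀ 3 ≤ G.maxDegree := by exact_mod_cast h15
  refine ⟨_, inferInstance, G, (le_max_left _ _).trans h16, (le_max_right _ _).trans h16, ?_, ?_⟩
  · intro S hS
    rw [SimpleGraph.isNClique_iff] at hS
    obtain ⟨hS1, hS2⟩ := hS
    have hgood : Good π (S.map (Function.Embedding.subtype _)) := by
      refine hG1 _ (by rw [card_map, hS2]) ?_
      intro v hv
      rw [Finset.mem_map] at hv
      obtain ⟨w, -, rfl⟩ := hv
      exact w.2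
    have h17 := hgood.clique hD0 R (r := r) (by
      intro u hu v hv huv
      rw [Finset.mem_map] at hu hv
      obtain ⟨u', hu', rfl⟩ := hu
      obtain ⟨v', hv', rfl⟩ := hv
      exact hS1 (mem_coe.2 hu') (mem_coe.2 hv') (fun h => huv (by rw [h]))) (by
        rw [card_map, hS2]; exact hr) hR
    rw [card_map, hS2] at h17
    exact lt_irrefl _ h17
  · refine final_estimate (Fintype.card P) (a / b) d θ L h D G.maxDegree _ hx0 hd1 hθ hL hh'
      (by exact_mod_cast hD0) hD2 ?_ ?_ h11 h2.le
    · exact_mod_cast (le_max_right Δ₀ 3).trans h16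
    · have h18 : G.maxDegree ≤ D * (d * h) := G.maxDegree_le_of_forall_degree_le _ hG2
      exact_mod_cast h18

/-- the lower bound for cliques -/
theorem le_c_clique {P : Type} [Fintype P] [Inhabited P] (R : SimpleGraph P) {r : ℕ}
    (hr : 2 ≤ r) (hR : R.CliqueFree r) {d : ℕ} (hd0 : 0 < d) (hd : ∀ p, R.degree p ≤ d)
    (a b : ℕ) (ha : 0 < a) (hb : 0 < b) (hab : a < b * Fintype.card P) (y : ℝ) (hy : 0 < y) :
    ENNReal.ofReal (Fintype.card P * AA R (a / b) y / (d * (a / b : ℝ) ^ 2)) ≤
      c (⊤ : SimpleGraph (Fin r)) := by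
  have ha' : (0 : ℝ) < a := by exact_mod_cast ha
  have hb' : (0 : ℝ) < b := by exact_mod_cast hb
  have hx0 : (0 : ℝ) < a / b := by positivity
  have hd' : (0 : ℝ) < d := by exact_mod_cast hd0
  have hP' : (0 : ℝ) < Fintype.card P := by exact_mod_cast Fintype.card_pos
  refine ENNReal.le_of_forall_nnreal_lt fun L hL => ?_
  rcases eq_or_ne L 0 with rfl | hL0
  · simp
  have hLpos : (0 : ℝ) < L := by
    have := L.2
    exact lt_of_le_of_ne this (fun h => hL0 (NNReal.eq h.symm))
  have hL' : (L : ℝ) < Fintype.card P * AA R (a / b) y / (d * (a / b : ℝ) ^ 2) := by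
    rw [← ENNReal.ofReal_coe_nnreal,
      ENNReal.ofReal_lt_ofReal_iff_of_nonneg (NNReal.coe_nonneg L)] at hL
    exact hL
  have hA0 : 0 < AA R (a / b) y := by
    by_contra hle
    rw [not_lt] at hle
    have : (Fintype.card P : ℝ) * AA R (a / b) y / (d * (a / b : ℝ) ^ 2) ≤ 0 := by
      apply div_nonpos_of_nonpos_of_nonneg
      · exact mul_nonpos_of_nonneg_of_nonpos hP'.le hle
      · positivity
    linarith
  obtain ⟨θ, hθ1, hθ2⟩ : ∃ θ : ℝ, (a / b : ℝ) / AA R (a / b) y < θ ∧
      θ < (Fintype.card P / (a / b : ℝ)) / (d * L) := by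
    refine exists_between ?_
    rw [lt_div_iff₀ (by positivity)] at hL'
    rw [div_lt_div_iff₀ hA0 (by positivity)]
    calc (a / b : ℝ) * (d * L) = (L * (d * (a / b : ℝ) ^ 2)) / (a / b) := by field_simp
      _ < (Fintype.card P * AA R (a / b) y) / (a / b) := div_lt_div_of_pos_right hL' hx0
      _ = _ := by ring
  have hθ0 : 0 < θ := lt_trans (by positivity) hθ1
  have h1 : (a / b : ℝ) < θ * AA R (a / b) y := by rwa [div_lt_iff₀ hA0] at hθ1
  have h2 : (L : ℝ) < (Fintype.card P / (a / b : ℝ)) / (d * θ) := by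
    rw [lt_div_iff₀ (by positivity)] at hθ2 ⊢
    calc (L : ℝ) * (d * θ) = θ * (d * L) := by ring
      _ < _ := hθ2
  have h3 : ∃ᶠ Δ in atTop, (L : ℝ≥0∞) ≤ cAt (⊤ : SimpleGraph (Fin r)) Δ := by
    rw [frequently_atTop]
    intro Δ₀
    obtain ⟨V, _, G, g1, -, g2, g3⟩ := exists_clique R hr hR hd0 hd a b ha hb hab y θ L hy hθ0
      hLpos h1 h2 Δ₀
    refine ⟨G.maxDegree, g1, ?_⟩
    unfold cAt
    refine le_iSup_of_le V ?_
    refine le_iSup_of_le inferInstance ?_
    refine le_iSup_of_le G ?_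
    refine le_iSup_of_le (by
      intro hcon
      exact SimpleGraph.IsContained.not_cliqueFree hcon g2) ?_
    refine le_iSup_of_le rfl ?_
    rw [← ENNReal.ofReal_coe_nnreal]
    exact ENNReal.ofReal_le_ofReal g3
  exact le_limsup_of_frequently_le h3 (by isBoundedDefault)

end Pool.Agent.H31.LB
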