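import Mathlib
import Pool.Agent.H31.LB.Count

set_option autoImplicit false

/-!
# Random graphs without large cliques and with few independent sets
-/

namespace Pool.Agent.H31.LB

open Finset Classical

/-- functions with values in `A` on `E` -/
theorem card_restrict {α β : Type} [Fintype α] [Fintype β] [DecidableEq α] (E : Finset α)
    (A : Finset β) (Q : (α → β) → Prop) [DecidablePred Q] (hQ : ∀ l, Q l ↔ ∀ e ∈ E, l e ∈ A) :
    (univ.filter Q).card * Fintype.card β ^ E.card =
      A.card ^ E.card * Fintype.card β ^ Fintype.card α := by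
  have h1 : univ.filter Q = Fintype.piFinset (fun e => if e ∈ E then A else univ) := by
    ext l
    rw [mem_filter, Fintype.mem_piFinset, hQ]
    constructor
    · rintro ⟨-, h⟩ e
      by_cases he : e ∈ E
      · rw [if_pos he]
        exact h e he
      · rw [if_neg he]
        exact mem_univ _
    · intro h
      refine ⟨mem_univ _, fun e he => ?_⟩
      have := h e
      rwa [if_pos he] at this
  have h2 : (Fintype.piFinset (fun e => if e ∈ E then A else univ)).card =
      A.card ^ E.card * Fintype.card β ^ (Fintype.card α - E.card) := by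
    rw [Fintype.card_piFinset]
    have h3 : ∀ e : α, (if e ∈ E then A else univ).card =
        if e ∈ E then A.card else Fintype.card β := by
      intro e
      by_cases he : e ∈ E
      · rw [if_pos he, if_pos he]
      · rw [if_neg he, if_neg he, card_univ]
    rw [prod_congr rfl (fun e _ => h3 e), prod_ite, prod_const, prod_const]
    congr 2
    · congr 1
      ext e
      simp
    · rw [filter_not, card_sdiff_of_subset (filter_subset _ _), card_univ]
      congr 2
      ext e
      simp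
  rw [h1, h2, mul_assoc, ← pow_add, Nat.sub_add_cancel (card_le_univ E)]

/-- the graph of a labelling of the pairs: the label `0` means no edge -/
def LG {q s : ℕ} (l : Sym2 (Fin q) → Fin s) : SimpleGraph (Fin q) where
  Adj i j := i ≠ j ∧ (l s(i, j)).val ≠ 0
  symm := ⟨fun i j ⟨h1, h2⟩ => ⟨h1.symm, by rwa [Sym2.eq_swap]⟩⟩
  loopless := ⟨fun _ ⟨h, _⟩ => h rfl⟩

/-- the pairs in `J` -/
def pairs {q : ℕ} (J : Finset (Fin q)) : Finset (Sym2 (Fin q)) := J.offDiag.image Sym2.mk.uncurry

theorem card_pairs {q : ℕ} (J : Finset (Fin q)) : (pairs J).card = J.card.choose 2 := by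
  unfold pairs
  exact Sym2.card_image_offDiag J

theorem mem_pairs {q : ℕ} (J : Finset (Fin q)) (e : Sym2 (Fin q)) :
    e ∈ pairs J ↔ ∃ i ∈ J, ∃ j ∈ J, i ≠ j ∧ s(i, j) = e := by
  unfold pairs
  rw [mem_image]
  constructor
  · rintro ⟨⟨i, j⟩, h, rfl⟩
    rw [mem_offDiag] at h
    exact ⟨i, h.1, j, h.2.1, h.2.2, rfl⟩
  · rintro ⟨i, hi, j, hj, hij, rfl⟩
    exact ⟨(i, j), by rw [mem_offDiag]; exact ⟨hi, hj, hij⟩, rfl⟩

theorem card_indep {q s : ℕ} (hs : 0 < s) (J : Finset (Fin q)) :
    (univ.filter (fun l : Sym2 (Fin q) → Fin s => Ind (LG l) J)).card * s ^ (J.card.choose 2) =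
      s ^ Fintype.card (Sym2 (Fin q)) := by
  have h := card_restrict (pairs J) ({⟨0, hs⟩} : Finset (Fin s))
    (fun l : Sym2 (Fin q) → Fin s => Ind (LG l) J) (by
      intro l
      constructor
      · intro h e he
        rw [mem_pairs] at he
        obtain ⟨i, hi, j, hj, hij, rfl⟩ := he
        rw [mem_singleton]
        by_contra hne
        refine h i hi j hj ⟨hij, fun h0 => hne (Fin.ext h0)⟩
      · rintro h i hi j hj ⟨hij, h0⟩
        have := h s(i, j) ((mem_pairs J _).2 ⟨i, hi, j, hj, hij, rfl⟩)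
        rw [mem_singleton] at this
        rw [this] at h0
        exact h0 rfl)
  rw [card_pairs, Fintype.card_fin, card_singleton, one_pow, one_mul] at h
  exact h

theorem card_clique {q s : ℕ} (hs : 0 < s) (K : Finset (Fin q)) :
    (univ.filter (fun l : Sym2 (Fin q) → Fin s => (LG l).IsClique K)).card *
      s ^ (K.card.choose 2) =
      (s - 1) ^ (K.card.choose 2) * s ^ Fintype.card (Sym2 (Fin q)) := by
  have h := card_restrict (pairs K) ((univ : Finset (Fin s)).erase ⟨0, hs⟩)
    (fun l : Sym2 (Fin q) → Fin s => (LG l).IsClique K) (by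
      intro l
      constructor
      · intro h e he
        rw [mem_pairs] at he
        obtain ⟨i, hi, j, hj, hij, rfl⟩ := he
        rw [mem_erase]
        refine ⟨fun h0 => (h (mem_coe.2 hi) (mem_coe.2 hj) hij).2 (by rw [h0]), mem_univ _⟩
      · intro h i hi j hj hij
        have := h s(i, j) ((mem_pairs K _).2 ⟨i, mem_coe.1 hi, j, mem_coe.1 hj, hij, rfl⟩)
        rw [mem_erase] at this
        exact ⟨hij, fun h0 => this.1 (Fin.ext h0)⟩)
  rw [card_pairs, Fintype.card_fin, card_erase_of_mem (mem_univ _), card_univ,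
    Fintype.card_fin] at h
  exact h

/-- the mean of the independence polynomial -/
noncomputable def EZ (q s : ℕ) (w : ℝ) : ℝ :=
  ∑ j ∈ range (q + 1), (q.choose j : ℝ) * (w ^ j / (s : ℝ) ^ (j.choose 2))

theorem sum_Z {q s : ℕ} (hs : 0 < s) (w : ℝ) :
    ∑ l : Sym2 (Fin q) → Fin s, Z (LG l) w = (s : ℝ) ^ Fintype.card (Sym2 (Fin q)) * EZ q s w := by
  have hs' : (0 : ℝ) < s := by exact_mod_cast hs
  unfold Z
  calc ∑ l : Sym2 (Fin q) → Fin s, ∑ J ∈ univ.filter (Ind (LG l)), w ^ J.card
      = ∑ l : Sym2 (Fin q) → Fin s, ∑ J : Finset (Fin q),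
          if Ind (LG l) J then w ^ J.card else 0 := by
        refine sum_congr rfl fun l _ => ?_
        rw [sum_filter]
    _ = ∑ J : Finset (Fin q), ∑ l : Sym2 (Fin q) → Fin s,
          if Ind (LG l) J then w ^ J.card else 0 := sum_comm
    _ = ∑ J : Finset (Fin q), (s : ℝ) ^ Fintype.card (Sym2 (Fin q)) *
          (w ^ J.card / (s : ℝ) ^ (J.card.choose 2)) := by
        refine sum_congr rfl fun J _ => ?_
        rw [← sum_filter, sum_const, nsmul_eq_mul]
        have h := card_indep hs J
        have h' : ((univ.filter (fun l : Sym2 (Fin q) → Fin s => Ind (LG l) J)).card : ℝ) *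
            (s : ℝ) ^ (J.card.choose 2) = (s : ℝ) ^ Fintype.card (Sym2 (Fin q)) := by
          exact_mod_cast h
        rw [← h']
        field_simp
    _ = (s : ℝ) ^ Fintype.card (Sym2 (Fin q)) *
          ∑ J : Finset (Fin q), (w ^ J.card / (s : ℝ) ^ (J.card.choose 2)) := by rw [mul_sum]
    _ = _ := by
        congr 1
        unfold EZ
        have h1 := sum_powerset_apply_card (α := ℝ)
          (fun j => w ^ j / (s : ℝ) ^ (j.choose 2)) (x := (univ : Finset (Fin q)))
        rw [powerset_univ, card_univ, Fintype.card_fin] at h1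
        rw [h1]
        refine sum_congr rfl fun j _ => ?_
        rw [nsmul_eq_mul]

/-- the existence of `R` -/
theorem exists_R (q s r : ℕ) (hs : 0 < s) (w : ℝ) (hw : 0 ≤ w)
    (h1 : 2 * (q.choose r) * (s - 1) ^ (r.choose 2) < s ^ (r.choose 2)) :
    ∃ R : SimpleGraph (Fin q), R.CliqueFree r ∧ Z R w ≤ 2 * EZ q s w := by
  by_contra hcon
  push Not at hcon
  have hs' : (0 : ℝ) < s := by exact_mod_cast hs
  set T := Fintype.card (Sym2 (Fin q)) with hT
  set A := univ.filter (fun l : Sym2 (Fin q) → Fin s => ¬ (LG l).CliqueFree r) with hA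
  have hEZ : 1 ≤ EZ q s w := by
    unfold EZ
    have h0 : (0 : ℕ) ∈ range (q + 1) := mem_range.2 (by omega)
    calc (1 : ℝ) = (q.choose 0 : ℝ) * (w ^ 0 / (s : ℝ) ^ (Nat.choose 0 2)) := by simp
      _ ≤ _ := single_le_sum (f := fun j => (q.choose j : ℝ) * (w ^ j / (s : ℝ) ^ (j.choose 2)))
        (fun j _ => by positivity) h0
  -- few labellings have a large clique
  have hAc : A.card * s ^ (r.choose 2) ≤ q.choose r * ((s - 1) ^ (r.choose 2) * s ^ T) := by
    have hsub : A ⊆ (powersetCard r (univ : Finset (Fin q))).biUnion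
        (fun K => univ.filter (fun l : Sym2 (Fin q) → Fin s => (LG l).IsClique K)) := by
      intro l hl
      rw [hA, mem_filter] at hl
      have h2 := hl.2
      unfold SimpleGraph.CliqueFree at h2
      push Not at h2
      obtain ⟨K, hK⟩ := h2
      rw [SimpleGraph.isNClique_iff] at hK
      rw [mem_biUnion]
      refine ⟨K, ?_, ?_⟩
      · rw [mem_powersetCard]
        exact ⟨subset_univ _, hK.2⟩
      · rw [mem_filter]
        exact ⟨mem_univ _, hK.1⟩
    calc A.card * s ^ (r.choose 2)
        ≤ (∑ K ∈ powersetCard r (univ : Finset (Fin q)),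
          (univ.filter (fun l : Sym2 (Fin q) → Fin s => (LG l).IsClique K)).card) *
            s ^ (r.choose 2) :=
          Nat.mul_le_mul_right _ ((card_le_card hsub).trans card_biUnion_le)
      _ = ∑ K ∈ powersetCard r (univ : Finset (Fin q)), ((s - 1) ^ (r.choose 2) * s ^ T) := by
          rw [sum_mul]
          refine sum_congr rfl fun K hK => ?_
          have h2 := card_clique hs K
          rw [(mem_powersetCard.1 hK).2] at h2
          exact h2
      _ = _ := by rw [sum_const, card_powersetCard, card_univ, Fintype.card_fin, smul_eq_mul]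
  have hA2 : 2 * A.card < s ^ T := by
    have h2 : 0 < s ^ (r.choose 2) := pow_pos hs _
    have h3 : 0 < s ^ T := pow_pos hs _
    have h4 : (2 * A.card) * s ^ (r.choose 2) < s ^ T * s ^ (r.choose 2) := by
      calc (2 * A.card) * s ^ (r.choose 2) = 2 * (A.card * s ^ (r.choose 2)) := by ring
        _ ≤ 2 * (q.choose r * ((s - 1) ^ (r.choose 2) * s ^ T)) := Nat.mul_le_mul_left _ hAc
        _ = (2 * (q.choose r) * (s - 1) ^ (r.choose 2)) * s ^ T := by ring
        _ < s ^ (r.choose 2) * s ^ T := Nat.mul_lt_mul_of_pos_right h1 h3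
        _ = _ := by ring
    exact Nat.lt_of_mul_lt_mul_right h4
  -- the mean of `Z`
  have h2 := sum_Z (q := q) hs w
  have hcard : Fintype.card (Sym2 (Fin q) → Fin s) = s ^ T := by
    rw [Fintype.card_fun, Fintype.card_fin]
  have h3 : (2 * EZ q s w) * ((s : ℝ) ^ T - A.card) ≤
      ∑ l : Sym2 (Fin q) → Fin s, Z (LG l) w := by
    have h4 : ∑ l ∈ Aᶜ, (2 * EZ q s w) ≤ ∑ l ∈ Aᶜ, Z (LG l) w := by
      refine sum_le_sum fun l hl => ?_
      rw [mem_compl, hA, mem_filter, not_and, not_not] at hl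
      exact (hcon _ (hl (mem_univ _))).le
    rw [sum_const, card_compl, hcard, nsmul_eq_mul, Nat.cast_sub (by omega)] at h4
    have h5 : ∑ l ∈ Aᶜ, Z (LG l) w ≤ ∑ l : Sym2 (Fin q) → Fin s, Z (LG l) w := by
      refine sum_le_sum_of_subset_of_nonneg (subset_univ _) fun l _ _ => ?_
      exact le_trans zero_le_one (one_le_Z _ _ hw)
    refine le_trans (le_of_eq ?_) (h4.trans h5)
    push_cast
    ring
  rw [h2, ← hT] at h3
  have h6 : (2 : ℝ) * A.card < (s : ℝ) ^ T := by exact_mod_cast hA2
  nlinarith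

/-- the mean of the independence polynomial for the chosen parameters -/
theorem EZ_le (t x : ℕ) (ht : 1 ≤ t) :
    EZ (t ^ (2 * x)) (t ^ 2) (1 / (t : ℝ)) ≤ Real.exp 1 * (t : ℝ) ^ (x ^ 2) := by
  have ht' : (0 : ℝ) < t := by exact_mod_cast ht
  have ht1 : (1 : ℝ) ≤ t := by exact_mod_cast ht
  unfold EZ
  calc ∑ j ∈ range (t ^ (2 * x) + 1), ((t ^ (2 * x)).choose j : ℝ) *
        ((1 / (t : ℝ)) ^ j / ((t ^ 2 : ℕ) : ℝ) ^ (j.choose 2))
      ≤ ∑ j ∈ range (t ^ (2 * x) + 1), (1 : ℝ) ^ j / (j.factorial : ℝ) * (t : ℝ) ^ (x ^ 2) := by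
        refine sum_le_sum fun j _ => ?_
        have h1 : ((t ^ (2 * x)).choose j : ℝ) ≤
            ((t ^ (2 * x) : ℕ) : ℝ) ^ j / (j.factorial : ℝ) := Nat.choose_le_pow_div _ _
        have h2 : (1 / (t : ℝ)) ^ j / ((t ^ 2 : ℕ) : ℝ) ^ (j.choose 2) = 1 / (t : ℝ) ^ (j ^ 2) := by
          rw [Nat.cast_pow, ← pow_mul, div_pow, one_pow, div_div, ← pow_add]
          congr 2
          have h3 : 2 * j.choose 2 = j * (j - 1) := by
            rw [Nat.choose_two_right]
            exact Nat.mul_div_cancel' (Nat.even_mul_pred_self j).two_dvd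
          rw [h3]
          rcases j with _ | j
          · rfl
          · rw [Nat.add_sub_cancel]
            ring
        rw [h2]
        have h4 : ((t ^ (2 * x) : ℕ) : ℝ) ^ j ≤ (t : ℝ) ^ (x ^ 2) * (t : ℝ) ^ (j ^ 2) := by
          rw [Nat.cast_pow, ← pow_mul, ← pow_add]
          refine pow_le_pow_right₀ ht1 ?_
          have h5 : (0 : ℤ) ≤ ((x : ℤ) - j) ^ 2 := sq_nonneg _
          zify
          nlinarith
        calc ((t ^ (2 * x)).choose j : ℝ) * (1 / (t : ℝ) ^ (j ^ 2))
            ≤ (((t ^ (2 * x) : ℕ) : ℝ) ^ j / (j.factorial : ℝ)) * (1 / (t : ℝ) ^ (j ^ 2)) :=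
              mul_le_mul_of_nonneg_right h1 (by positivity)
          _ ≤ (((t : ℝ) ^ (x ^ 2) * (t : ℝ) ^ (j ^ 2)) / (j.factorial : ℝ)) *
              (1 / (t : ℝ) ^ (j ^ 2)) := by
              refine mul_le_mul_of_nonneg_right ?_ (by positivity)
              exact div_le_div_of_nonneg_right h4 (by positivity)
          _ = (1 : ℝ) ^ j / (j.factorial : ℝ) * (t : ℝ) ^ (x ^ 2) := by
              rw [one_pow]
              field_simp
    _ = (∑ j ∈ range (t ^ (2 * x) + 1), (1 : ℝ) ^ j / (j.factorial : ℝ)) * (t : ℝ) ^ (x ^ 2) := by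
        rw [sum_mul]
    _ ≤ Real.exp 1 * (t : ℝ) ^ (x ^ 2) :=
        mul_le_mul_of_nonneg_right (Real.sum_le_exp_of_nonneg zero_le_one _) (by positivity)

end Pool.Agent.H31.LB
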