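import Mathlib
import Pool.Agent.H31.LB.Gen
import Pool.Agent.H31.LB.RandomR

set_option autoImplicit false

/-!
# `c(K_r) ≥ (1/2 - o(1)) log r`
-/

namespace Pool.Agent.H31.LB

open Finset Classical Filter
open scoped ENNReal NNReal

/-- the exponent for the random graph `R` -/
theorem AA_random (t x : ℕ) (ht : 2 ≤ t) (hx : 1 ≤ x) (R : SimpleGraph (Fin (t ^ (2 * x))))
    (hR : Z R (1 / (t : ℝ)) ≤ 2 * (Real.exp 1 * (t : ℝ) ^ (x ^ 2))) :
    ((x : ℝ) ^ 2 - x) * Real.log t - (x * Real.log (2 * x) + 2) ≤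
      AA R ((x : ℕ) / (1 : ℕ)) (Real.log (1 + 1 / (t : ℝ))) := by
  have ht' : (2 : ℝ) ≤ t := by exact_mod_cast ht
  have ht0 : (0 : ℝ) < t := by linarith
  have hx' : (1 : ℝ) ≤ x := by exact_mod_cast hx
  have hx0 : (0 : ℝ) < x := by linarith
  unfold AA
  rw [Fintype.card_fin, Nat.cast_one, div_one, Real.exp_log (by positivity)]
  have e1 : (1 + 1 / (t : ℝ) - 1) = 1 / t := by ring
  rw [e1]
  -- the lower bound of `log (1 + 1/t)`
  have h1 : 1 / (2 * (t : ℝ)) ≤ Real.log (1 + 1 / (t : ℝ)) := by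
    have h2 := Real.one_sub_inv_le_log_of_pos (show 0 < 1 + 1 / (t : ℝ) by positivity)
    refine le_trans ?_ h2
    have h3 : 1 - (1 + 1 / (t : ℝ))⁻¹ = 1 / (t + 1) := by field_simp; ring
    rw [h3]
    exact one_div_le_one_div_of_le (by positivity) (by linarith)
  have h2 : ((2 : ℝ) * x - 1) * Real.log t - Real.log (2 * x) ≤
      Real.log (((t ^ (2 * x) : ℕ) : ℝ) * Real.log (1 + 1 / (t : ℝ)) / x) := by
    have h3 : (t : ℝ) ^ (2 * x - 1) / (2 * x) ≤
        ((t ^ (2 * x) : ℕ) : ℝ) * Real.log (1 + 1 / (t : ℝ)) / x := by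
      have h4 : (t : ℝ) ^ (2 * x) = (t : ℝ) ^ (2 * x - 1) * t := by
        rw [← pow_succ]
        congr 1
        omega
      rw [Nat.cast_pow, h4]
      calc (t : ℝ) ^ (2 * x - 1) / (2 * x) = (t : ℝ) ^ (2 * x - 1) * t * (1 / (2 * t)) / x := by
            field_simp
        _ ≤ _ := by
            refine div_le_div_of_nonneg_right ?_ hx0.le
            exact mul_le_mul_of_nonneg_left h1 (by positivity)
    have h5 := Real.log_le_log (by positivity) h3
    rw [Real.log_div (by positivity) (by positivity), Real.log_pow, Nat.cast_sub (by omega)] at h5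
    push_cast at h5 ⊢
    exact h5
  have h3 : Real.log (Z R (1 / (t : ℝ))) ≤ Real.log 2 + 1 + (x : ℝ) ^ 2 * Real.log t := by
    have h4 : 0 < Z R (1 / (t : ℝ)) := lt_of_lt_of_le zero_lt_one (one_le_Z _ _ (by positivity))
    have h5 := Real.log_le_log h4 hR
    rw [Real.log_mul (by norm_num) (by positivity), Real.log_mul (Real.exp_pos _).ne'
      (by positivity), Real.log_exp, Real.log_pow] at h5
    push_cast at h5
    linarith
  have h4 : Real.log 2 ≤ 1 := by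
    have := Real.log_two_lt_d9
    linarith
  have h5 := mul_le_mul_of_nonneg_left h2 hx0.le
  have h6 : (x : ℝ) * (1 + Real.log (((t ^ (2 * x) : ℕ) : ℝ) * Real.log (1 + 1 / (t : ℝ)) / x)) =
      x + x * Real.log (((t ^ (2 * x) : ℕ) : ℝ) * Real.log (1 + 1 / (t : ℝ)) / x) := by ring
  rw [h6]
  nlinarith

/-- the condition for the cliques -/
theorem clique_condition (t x r : ℕ) (ht : 2 ≤ t) (hr : 1 ≤ r)
    (h : 2 * x * Real.log t + 1 ≤ ((r : ℝ) - 1) / (2 * t ^ 2)) :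
    2 * ((t ^ (2 * x)).choose r) * (t ^ 2 - 1) ^ (r.choose 2) < (t ^ 2) ^ (r.choose 2) := by
  have ht' : (2 : ℝ) ≤ t := by exact_mod_cast ht
  have ht0 : (0 : ℝ) < t := by linarith
  have hr' : (1 : ℝ) ≤ r := by exact_mod_cast hr
  have h1 : ((t ^ (2 * x)).choose r : ℝ) ≤ Real.exp (r * (2 * x * Real.log t)) := by
    have h2 : ((t ^ (2 * x)).choose r : ℝ) ≤ ((t ^ (2 * x) : ℕ) : ℝ) ^ r := by
      exact_mod_cast Nat.choose_le_pow _ _
    refine h2.trans (le_of_eq ?_)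
    rw [Nat.cast_pow, ← Real.rpow_natCast, ← Real.rpow_natCast, ← Real.rpow_mul ht0.le,
      Real.rpow_def_of_pos ht0]
    congr 1
    push_cast
    ring
  have h2 : ((t ^ 2 - 1 : ℕ) : ℝ) ≤ (t : ℝ) ^ 2 * Real.exp (-(1 / (t : ℝ) ^ 2)) := by
    rw [Nat.cast_sub (Nat.one_le_pow _ _ (by omega))]
    push_cast
    have h3 := Real.add_one_le_exp (-(1 / (t : ℝ) ^ 2))
    have h4 : (t : ℝ) ^ 2 * (-(1 / (t : ℝ) ^ 2) + 1) = (t : ℝ) ^ 2 - 1 := by field_simp; ring
    rw [← h4]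
    exact mul_le_mul_of_nonneg_left h3 (by positivity)
  have h3 : (((t ^ 2 - 1 : ℕ) : ℝ)) ^ (r.choose 2) ≤
      ((t : ℝ) ^ 2) ^ (r.choose 2) * Real.exp (-((r * (r - 1) / 2) / (t : ℝ) ^ 2)) := by
    calc (((t ^ 2 - 1 : ℕ) : ℝ)) ^ (r.choose 2)
        ≤ ((t : ℝ) ^ 2 * Real.exp (-(1 / (t : ℝ) ^ 2))) ^ (r.choose 2) :=
          pow_le_pow_left₀ (Nat.cast_nonneg _) h2 _
      _ = _ := by
          rw [mul_pow, ← Real.exp_nat_mul, Nat.cast_choose_two]
          congr 2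
          ring
  have h4 : 2 * Real.exp (r * (2 * x * Real.log t)) *
      Real.exp (-((r * (r - 1) / 2) / (t : ℝ) ^ 2)) < 1 := by
    rw [mul_assoc, ← Real.exp_add]
    have h5 : r * (2 * x * Real.log t) + -((r * (r - 1) / 2) / (t : ℝ) ^ 2) ≤ -1 := by
      have h6 : (r * ((r : ℝ) - 1) / 2) / (t : ℝ) ^ 2 = r * (((r : ℝ) - 1) / (2 * t ^ 2)) := by
        field_simp
      rw [h6]
      have h7 := mul_le_mul_of_nonneg_left h (show (0 : ℝ) ≤ r by linarith)
      nlinarith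
    have h8 : Real.exp (-1) < 1 / 2 := by
      rw [Real.exp_neg, inv_eq_one_div]
      apply one_div_lt_one_div_of_lt (by norm_num)
      have := Real.exp_one_gt_d9
      linarith
    have h9 := Real.exp_le_exp.2 h5
    linarith
  have h5 : (2 * ((t ^ (2 * x)).choose r : ℝ) * (((t ^ 2 - 1 : ℕ) : ℝ)) ^ (r.choose 2)) <
      ((t : ℝ) ^ 2) ^ (r.choose 2) := by
    calc 2 * ((t ^ (2 * x)).choose r : ℝ) * (((t ^ 2 - 1 : ℕ) : ℝ)) ^ (r.choose 2)
        ≤ 2 * Real.exp (r * (2 * x * Real.log t)) *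
          (((t : ℝ) ^ 2) ^ (r.choose 2) * Real.exp (-((r * (r - 1) / 2) / (t : ℝ) ^ 2))) := by
          refine mul_le_mul ?_ h3 (by positivity) (by positivity)
          linarith
      _ = (2 * Real.exp (r * (2 * x * Real.log t)) *
          Real.exp (-((r * (r - 1) / 2) / (t : ℝ) ^ 2))) * ((t : ℝ) ^ 2) ^ (r.choose 2) := by ring
      _ < 1 * ((t : ℝ) ^ 2) ^ (r.choose 2) := mul_lt_mul_of_pos_right h4 (by positivity)
      _ = _ := one_mul _
  exact_mod_cast h5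

/-- a lower bound for `c(K_r)` with parameters -/
theorem le_c_of_params (t x r : ℕ) (ht : 2 ≤ t) (hx : 1 ≤ x) (hr : 2 ≤ r)
    (h : 2 * x * Real.log t + 1 ≤ ((r : ℝ) - 1) / (2 * t ^ 2)) :
    ENNReal.ofReal ((1 - 1 / (x : ℝ)) * Real.log t - (Real.log (2 * x) + 2)) ≤
      c (⊤ : SimpleGraph (Fin r)) := by
  obtain ⟨R, hR1, hR2⟩ := exists_R (t ^ (2 * x)) (t ^ 2) r (by positivity) (1 / (t : ℝ))
    (by positivity) (clique_condition t x r ht (by omega) h)
  have hq : 0 < t ^ (2 * x) := by positivity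
  have : Inhabited (Fin (t ^ (2 * x))) := ⟨⟨0, hq⟩⟩
  have hx' : (1 : ℝ) ≤ x := by exact_mod_cast hx
  have ht1 : (1 : ℝ) ≤ t := by exact_mod_cast (show 1 ≤ t by omega)
  have h1 := AA_random t x ht hx R (hR2.trans (mul_le_mul_of_nonneg_left (EZ_le t x (by omega))
    (by norm_num)))
  have h2 := le_c_clique R hr hR1 (d := t ^ (2 * x)) hq (fun p => by
    have := R.degree_lt_card_verts p
    rw [Fintype.card_fin] at this
    exact this.le) x 1 hx one_pos (by
      rw [Fintype.card_fin, one_mul]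
      calc x < 2 ^ x := Nat.lt_two_pow_self
        _ ≤ t ^ x := Nat.pow_le_pow_left ht _
        _ ≤ t ^ (2 * x) := Nat.pow_le_pow_right (by omega) (by omega))
    (Real.log (1 + 1 / (t : ℝ))) (Real.log_pos (by
      have : (0 : ℝ) < 1 / t := by positivity
      linarith))
  refine le_trans (ENNReal.ofReal_le_ofReal ?_) h2
  rw [Fintype.card_fin]
  have hq' : (0 : ℝ) < ((t ^ (2 * x) : ℕ) : ℝ) := by exact_mod_cast hq
  have hx2 : (0 : ℝ) < ((x : ℕ) / (1 : ℕ) : ℝ) ^ 2 := by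
    rw [Nat.cast_one, div_one]
    positivity
  rw [mul_div_mul_left _ _ hq'.ne', le_div_iff₀ hx2]
  refine le_trans ?_ h1
  rw [Nat.cast_one, div_one]
  have hlog : 0 ≤ Real.log (2 * x) := Real.log_nonneg (by linarith)
  have h3 : ((1 - 1 / (x : ℝ)) * Real.log t - (Real.log (2 * x) + 2)) * (x : ℝ) ^ 2 =
      ((x : ℝ) ^ 2 - x) * Real.log t - (Real.log (2 * x) + 2) * (x : ℝ) ^ 2 := by
    field_simp
  rw [h3]
  have h4 : (x : ℝ) ≤ (x : ℝ) ^ 2 := by nlinarith
  nlinarith [mul_nonneg hlog (sub_nonneg.2 h4)]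

/-- **The lower bound for cliques.** -/
theorem c_clique (ε : ℝ) (hε : 0 < ε) :
    ∀ᶠ r : ℕ in atTop, ENNReal.ofReal ((1 / 2 - ε) * Real.log r) ≤
      c (⊤ : SimpleGraph (Fin r)) := by
  -- the case of small `ε` is enough
  wlog hε1 : ε ≤ 1 / 2 generalizing ε with H
  · filter_upwards [H (1 / 2) (by norm_num) le_rfl] with r hr
    refine le_trans (ENNReal.ofReal_le_ofReal ?_) hr
    have hlog : 0 ≤ Real.log (r : ℝ) := Real.log_natCast_nonneg r
    exact mul_le_mul_of_nonneg_right (by linarith) hlog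
  obtain ⟨x, hx⟩ : ∃ x : ℕ, 2 / ε ≤ x := ⟨⌈2 / ε⌉₊, Nat.le_ceil _⟩
  have hx0 : (0 : ℝ) < x := lt_of_lt_of_le (by positivity) hx
  have hx1 : 1 ≤ x := by exact_mod_cast hx0
  have hxε : 1 / (x : ℝ) ≤ ε / 2 := by
    rw [div_le_iff₀ hε] at hx
    rw [div_le_iff₀ hx0]
    linarith
  set β : ℝ := ε / 2 with hβ
  have hβ0 : 0 < β := by positivity
  set γ : ℝ := (1 - β) / 2 with hγ
  have hγ0 : 0 < γ := by rw [hγ, hβ]; linarith
  -- `t = ⌊r ^ γ⌋`
  have T1 : Tendsto (fun r : ℕ => (r : ℝ) ^ γ) atTop atTop :=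
    (tendsto_rpow_atTop hγ0).comp tendsto_natCast_atTop_atTop
  have T2 : Tendsto (fun r : ℕ => (r : ℝ) ^ β) atTop atTop :=
    (tendsto_rpow_atTop hβ0).comp tendsto_natCast_atTop_atTop
  have T3 : Tendsto (fun r : ℕ => Real.log (r : ℝ)) atTop atTop :=
    Real.tendsto_log_atTop.comp tendsto_natCast_atTop_atTop
  have T4 : ∀ᶠ r : ℕ in atTop, 2 * x * Real.log r + 1 ≤ (r : ℝ) ^ β / 4 := by
    have h1 : Tendsto (fun z : ℝ => Real.log z / z ^ β) atTop (nhds 0) :=
      (isLittleO_log_rpow_atTop hβ0).tendsto_div_nhds_zero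
    have h2 := (h1.comp tendsto_natCast_atTop_atTop).eventually
      (gt_mem_nhds (show (0 : ℝ) < 1 / (16 * x) by positivity))
    filter_upwards [h2, T2.eventually_ge_atTop 8, eventually_ge_atTop 1] with r h3 h4 h5
    simp only [Function.comp] at h3
    rw [div_lt_iff₀ (by linarith)] at h3
    have h6 : 2 * x * Real.log r ≤ 2 * x * (1 / (16 * x) * (r : ℝ) ^ β) :=
      mul_le_mul_of_nonneg_left h3.le (by positivity)
    have h7 : 2 * x * (1 / (16 * x) * (r : ℝ) ^ β) = (r : ℝ) ^ β / 8 := by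
      field_simp
      ring
    rw [h7] at h6
    linarith
  have T5 : ∀ᶠ r : ℕ in atTop, (Real.log 2 + (Real.log (2 * x) + 2)) / (ε / 4) ≤ Real.log r :=
    T3.eventually_ge_atTop _
  filter_upwards [T1.eventually_ge_atTop 4, T4, T5, eventually_ge_atTop 2] with r h1 h2 h3 h4
  have hr' : (2 : ℝ) ≤ r := by exact_mod_cast h4
  have hr0 : (0 : ℝ) < r := by linarith
  set t := ⌊(r : ℝ) ^ γ⌋₊ with ht
  have ht1 : (t : ℝ) ≤ (r : ℝ) ^ γ := Nat.floor_le (by positivity)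
  have ht2 : (r : ℝ) ^ γ < t + 1 := Nat.lt_floor_add_one _
  have ht3 : (r : ℝ) ^ γ / 2 ≤ t := by linarith
  have ht4 : 2 ≤ t := by
    have : (3 : ℝ) < (t : ℝ) + 1 := by linarith
    have h5 : (2 : ℝ) < t := by linarith
    exact_mod_cast h5.le
  have ht0 : (0 : ℝ) < t := by
    have : (2 : ℝ) ≤ t := by exact_mod_cast ht4
    linarith
  have hlogr : 0 < Real.log r := Real.log_pos (by linarith)
  have hlogt : Real.log t ≤ Real.log r := by
    refine Real.log_le_log ht0 (ht1.trans ?_)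
    calc (r : ℝ) ^ γ ≤ (r : ℝ) ^ (1 : ℝ) :=
          Real.rpow_le_rpow_of_exponent_le (by linarith) (by rw [hγ]; linarith)
      _ = r := Real.rpow_one _
  have hsq : (t : ℝ) ^ 2 ≤ (r : ℝ) / (r : ℝ) ^ β := by
    calc (t : ℝ) ^ 2 ≤ ((r : ℝ) ^ γ) ^ 2 := pow_le_pow_left₀ ht0.le ht1 2
      _ = (r : ℝ) ^ (1 - β) := by
          rw [← Real.rpow_natCast, ← Real.rpow_mul hr0.le]
          congr 1
          rw [hγ]
          push_cast
          ring
      _ = (r : ℝ) / (r : ℝ) ^ β := by rw [Real.rpow_sub hr0, Real.rpow_one]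
  have hcond : 2 * x * Real.log t + 1 ≤ ((r : ℝ) - 1) / (2 * t ^ 2) := by
    have hrb : (0 : ℝ) < (r : ℝ) ^ β := by positivity
    have h5 : (r : ℝ) ^ β / 4 ≤ ((r : ℝ) - 1) / (2 * t ^ 2) := by
      rw [le_div_iff₀ (by positivity)]
      rw [le_div_iff₀ hrb] at hsq
      nlinarith
    have h6 : 2 * x * Real.log t ≤ 2 * x * Real.log r :=
      mul_le_mul_of_nonneg_left hlogt (by positivity)
    linarith
  refine le_trans (ENNReal.ofReal_le_ofReal ?_) (le_c_of_params t x r ht4 hx1 h4 hcond)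
  have h5 : γ * Real.log r - Real.log 2 ≤ Real.log t := by
    have h6 := Real.log_le_log (by positivity) ht3
    rw [Real.log_div (by positivity) (by norm_num), Real.log_rpow hr0] at h6
    exact h6
  rw [div_le_iff₀ (by positivity)] at h3
  have hx3 : 0 ≤ 1 - 1 / (x : ℝ) := by linarith
  have hx4 : 1 - 1 / (x : ℝ) ≤ 1 := by
    have : 0 < 1 / (x : ℝ) := by positivity
    linarith
  have h6 : (1 - 1 / (x : ℝ)) * (γ * Real.log r - Real.log 2) ≤ (1 - 1 / (x : ℝ)) * Real.log t :=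
    mul_le_mul_of_nonneg_left h5 hx3
  have h7 : (1 - ε / 2) * (γ * Real.log r) ≤ (1 - 1 / (x : ℝ)) * (γ * Real.log r) :=
    mul_le_mul_of_nonneg_right (by linarith) (by positivity)
  have h8 : (1 - 1 / (x : ℝ)) * Real.log 2 ≤ Real.log 2 := by
    have : 0 < Real.log 2 := Real.log_pos (by norm_num)
    nlinarith
  have h9 : (1 / 2 - ε / 2) * Real.log r ≤ (1 - ε / 2) * (γ * Real.log r) := by
    have : (1 - ε / 2) * (γ * Real.log r) = (1 - ε / 2) * γ * Real.log r := by ring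
    rw [this]
    refine mul_le_mul_of_nonneg_right ?_ hlogr.le
    rw [hγ, hβ]
    nlinarith
  nlinarith

end Pool.Agent.H31.LB
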