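import Mathlib
import Pool.Agent.H31.LB.Main

set_option autoImplicit false

/-!
# The case of complete graphs `R`, and numerical values
-/

namespace Pool.Agent.H31.LB

open Finset Classical Filter
open scoped ENNReal NNReal

theorem Z_top (r : ℕ) (w : ℝ) : Z (⊤ : SimpleGraph (Fin r)) w = 1 + r * w := by
  have h : univ.filter (Ind (⊤ : SimpleGraph (Fin r))) =
      insert ∅ ((univ : Finset (Fin r)).image (fun p => ({p} : Finset (Fin r)))) := by
    ext J
    rw [mem_filter, mem_insert, mem_image]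
    constructor
    · rintro ⟨-, hJ⟩
      rcases J.eq_empty_or_nonempty with h | ⟨p, hp⟩
      · exact Or.inl h
      · refine Or.inr ⟨p, mem_univ _, ?_⟩
        ext p'
        rw [mem_singleton]
        constructor
        · rintro rfl
          exact hp
        · intro hp'
          by_contra hne
          exact hJ p' hp' p hp (by rw [SimpleGraph.top_adj]; exact hne)
    · rintro (rfl | ⟨p, -, rfl⟩)
      · exact ⟨mem_univ _, fun p hp => absurd hp (notMem_empty p)⟩
      · refine ⟨mem_univ _, fun p₁ h₁ p₂ h₂ h => ?_⟩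
        rw [mem_singleton] at h₁ h₂
        rw [h₁, h₂] at h
        exact h.ne rfl
  unfold Z
  rw [h, sum_insert, sum_image]
  · simp
  · intro p _ p' _ h
    exact singleton_injective h
  · intro h
    rw [mem_image] at h
    obtain ⟨p, -, hp⟩ := h
    exact singleton_ne_empty p hp

theorem top_transitive (r : ℕ) (p p' : Fin r) : ∃ σ : (⊤ : SimpleGraph (Fin r)) ≃g ⊤, σ p = p' :=
  ⟨⟨Equiv.swap p p', by
    intro a b
    rw [SimpleGraph.top_adj, SimpleGraph.top_adj]
    exact (Equiv.swap p p').injective.ne_iff⟩, Equiv.swap_apply_left p p'⟩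

theorem top_degree_le (r : ℕ) (inst : DecidableRel (⊤ : SimpleGraph (Fin r)).Adj) (p : Fin r) :
    (⊤ : SimpleGraph (Fin r)).degree p ≤ r - 1 := by
  have h := (⊤ : SimpleGraph (Fin r)).degree_lt_card_verts p
  rw [Fintype.card_fin] at h
  omega

/-- the exponent for the complete graph -/
noncomputable def A (r : ℕ) (x y : ℝ) : ℝ :=
  x * (1 + Real.log (r * y / x)) - Real.log (1 + r * (Real.exp y - 1))

theorem AA_top (r : ℕ) (x y : ℝ) : AA (⊤ : SimpleGraph (Fin r)) x y = A r x y := by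
  unfold AA A
  rw [Z_top, Fintype.card_fin]

theorem colorable_iff {W : Type} (F : SimpleGraph W) (r : ℕ) :
    ¬ F.Colorable r ↔ IsEmpty (F →g (⊤ : SimpleGraph (Fin r))) := by
  unfold SimpleGraph.Colorable SimpleGraph.Coloring
  rw [not_nonempty_iff]

theorem le_c_complete (r : ℕ) (hr : 2 ≤ r) (a b : ℕ) (ha : 0 < a) (hb : 0 < b)
    (hab : a < b * r) (y : ℝ) (hy : 0 < y) {W : Type} [Fintype W] (F : SimpleGraph W)
    (hF : ¬ F.Colorable r) :
    ENNReal.ofReal (A r (a / b) y / ((1 - 1 / (r : ℝ)) * (a / b : ℝ) ^ 2)) ≤ c F := by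
  have : Inhabited (Fin r) := ⟨⟨0, by omega⟩⟩
  have h := le_c (⊤ : SimpleGraph (Fin r)) (top_transitive r) (d := r - 1) (by omega)
    (top_degree_le r _) F ((colorable_iff F r).1 hF) a b ha hb (by rw [Fintype.card_fin]; exact hab)
    y hy
  rw [AA_top, Fintype.card_fin] at h
  refine le_trans (le_of_eq ?_) h
  congr 1
  have hr' : (2 : ℝ) ≤ r := by exact_mod_cast hr
  rw [Nat.cast_sub (by omega), Nat.cast_one]
  have h1 : (1 - 1 / (r : ℝ)) = (r - 1) / r := by field_simp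
  rw [h1]
  have h2 : (0 : ℝ) < r - 1 := by linarith
  field_simp

/-- the local form for the complete graph -/
theorem local_complete (r : ℕ) (hr : 2 ≤ r) (a b : ℕ) (ha : 0 < a) (hb : 0 < b)
    (hab : a < b * r) (y : ℝ) (hy : 0 < y) (L : ℝ)
    (hL : L < A r (a / b) y / ((1 - 1 / (r : ℝ)) * (a / b : ℝ) ^ 2)) (hL0 : 0 < L) (f Δ₀ : ℕ) :
    ∃ (V : Type) (_ : Fintype V) (G : SimpleGraph V), Δ₀ ≤ G.maxDegree ∧ 3 ≤ G.maxDegree ∧
      (∀ S : Finset V, S.card ≤ f → (G.induce (S : Set V)).Colorable r) ∧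
      L ≤ (G.chromaticNumber.toNat : ℝ) / ((G.maxDegree : ℝ) / Real.log G.maxDegree) := by
  have : Inhabited (Fin r) := ⟨⟨0, by omega⟩⟩
  have hr' : (2 : ℝ) ≤ r := by exact_mod_cast hr
  have h1 : (1 - 1 / (r : ℝ)) = (r - 1) / r := by field_simp
  have h2 : (0 : ℝ) < r - 1 := by linarith
  obtain ⟨V, _, G, g1, g2, g3, g4⟩ := exists_local' (⊤ : SimpleGraph (Fin r)) (top_transitive r)
    (d := r - 1) (by omega) (top_degree_le r _) a b ha hb (by rw [Fintype.card_fin]; exact hab)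
    y hy L hL0 (by
      rw [AA_top, Fintype.card_fin]
      refine lt_of_lt_of_eq hL ?_
      rw [Nat.cast_sub (by omega), Nat.cast_one, h1]
      field_simp) f Δ₀
  refine ⟨V, _, G, g1, g2, ?_, g4⟩
  intro S hS
  obtain ⟨φ, hφ⟩ := g3 S hS
  refine ⟨SimpleGraph.Coloring.mk (fun v : (S : Set V) => φ v.1) ?_⟩
  intro u v huv
  have := hφ u.1 (mem_coe.1 u.2) v.1 (mem_coe.1 v.2) huv
  rw [SimpleGraph.top_adj] at this
  exact this

/-- `log (3/2) ≥ 0.4054` -/
theorem log_three_half : (0.4054 : ℝ) ≤ Real.log (3 / 2) := by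
  rw [Real.le_log_iff_exp_le (by norm_num)]
  have h := Real.exp_bound' (x := 0.4054) (by norm_num) (by norm_num) (n := 6) (by norm_num)
  refine h.trans ?_
  norm_num [Finset.sum_range_succ, Nat.factorial]

theorem A_three : (0.196125 : ℝ) ≤ A 3 (3 / 4) (Real.log (3 / 2)) := by
  unfold A
  rw [Real.exp_log (by norm_num)]
  have h1 : (1.6216 : ℝ) ≤ ((3 : ℕ) : ℝ) * Real.log (3 / 2) / (3 / 4) := by
    have := log_three_half
    push_cast
    rw [le_div_iff₀ (by norm_num)]
    linarith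
  have h2 := Real.log_le_log (by norm_num) h1
  have h3 : (1 + ((3 : ℕ) : ℝ) * (3 / 2 - 1)) = 5 / 2 := by norm_num
  rw [h3]
  have h4 : 4 * Real.log (5 / 2) ≤ 2.2155 + 3 * Real.log 1.6216 := by
    have e1 : 4 * Real.log (5 / 2) = Real.log ((5 / 2) ^ 4) := by
      rw [Real.log_pow]; norm_num
    have e2 : 3 * Real.log 1.6216 = Real.log (1.6216 ^ 3) := by
      rw [Real.log_pow]; norm_num
    rw [e1, e2, ← sub_le_iff_le_add, ← Real.log_div (by norm_num) (by norm_num),
      Real.log_le_iff_le_exp (by norm_num)]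
    have e3 : Real.exp 2.2155 = Real.exp 1 * Real.exp 1 * Real.exp 0.2155 := by
      rw [← Real.exp_add, ← Real.exp_add]
      norm_num
    have e4 := Real.exp_one_gt_d9
    have e5 : (1.2403 : ℝ) ≤ Real.exp 0.2155 := by
      have h := Real.sum_le_exp_of_nonneg (x := 0.2155) (by norm_num) 4
      refine le_trans ?_ h
      norm_num [Finset.sum_range_succ, Nat.factorial]
    rw [e3]
    have e6 : (7.38905 : ℝ) ≤ Real.exp 1 * Real.exp 1 := by nlinarith
    calc (5 / 2 : ℝ) ^ 4 / 1.6216 ^ 3 ≤ 7.38905 * 1.2403 := by norm_num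
      _ ≤ Real.exp 1 * Real.exp 1 * Real.exp 0.2155 :=
        mul_le_mul e6 e5 (by norm_num) (by positivity)
  linarith

/-- the value for `r = 3` -/
theorem value_three :
    (0.523 : ℝ) ≤ A 3 ((3 : ℕ) / (4 : ℕ)) (Real.log (3 / 2)) /
      ((1 - 1 / ((3 : ℕ) : ℝ)) * (((3 : ℕ) : ℝ) / ((4 : ℕ) : ℝ)) ^ 2) := by
  have h := A_three
  rw [le_div_iff₀ (by norm_num)]
  push_cast
  have h1 : A 3 (3 / 4) (Real.log (3 / 2)) = A 3 (3 / 4) (Real.log (3 / 2)) := rfl
  linarith

theorem exp_eight_fifth : Real.exp (8 / 5) ≤ 4.96 := by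
  have e1 : Real.exp (8 / 5) = Real.exp 1 * Real.exp 0.6 := by
    rw [← Real.exp_add]
    norm_num
  have e2 := Real.exp_one_lt_d9
  have e3 : Real.exp 0.6 ≤ 1.823 := by
    have h := Real.exp_bound' (x := 0.6) (by norm_num) (by norm_num) (n := 5) (by norm_num)
    refine h.trans ?_
    norm_num [Finset.sum_range_succ, Nat.factorial]
  rw [e1]
  calc Real.exp 1 * Real.exp 0.6 ≤ 2.7182818286 * 1.823 :=
        mul_le_mul e2.le e3 (Real.exp_pos _).le (by norm_num)
    _ ≤ 4.96 := by norm_num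

/-- the exponent for `x = 2`, `y = 8/5` -/
theorem log_le_A (r : ℕ) (hr : 3 ≤ r) : Real.log r ≤ A r 2 (8 / 5) := by
  unfold A
  have hr' : (3 : ℝ) ≤ r := by exact_mod_cast hr
  have hr0 : (0 : ℝ) < r := by linarith
  have he := exp_eight_fifth
  have he1 : 1 ≤ Real.exp (8 / 5) := by
    have := Real.add_one_le_exp (8 / 5 : ℝ)
    linarith
  have h0 : 0 < 1 + r * (Real.exp (8 / 5) - 1) := by nlinarith
  have h1 : Real.log (1 + r * (Real.exp (8 / 5) - 1)) ≤ Real.log (4.3 * r) := by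
    refine Real.log_le_log h0 ?_
    nlinarith
  have h2 : (r : ℝ) * (8 / 5) / 2 = 0.8 * r := by ring
  rw [h2, Real.log_mul (by norm_num) hr0.ne']
  rw [Real.log_mul (by norm_num) hr0.ne'] at h1
  have h3 : Real.log 4.3 ≤ 2 + 2 * Real.log 0.8 := by
    have e1 : 2 * Real.log 0.8 = Real.log (0.8 ^ 2) := by
      rw [Real.log_pow]; norm_num
    rw [e1, ← sub_le_iff_le_add, ← Real.log_div (by norm_num) (by norm_num),
      Real.log_le_iff_le_exp (by norm_num)]
    have e3 : Real.exp 2 = Real.exp 1 * Real.exp 1 := by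
      rw [← Real.exp_add]
      norm_num
    have e4 := Real.exp_one_gt_d9
    rw [e3]
    have e6 : (7.38905 : ℝ) ≤ Real.exp 1 * Real.exp 1 := by nlinarith
    refine le_trans ?_ e6
    norm_num
  linarith

theorem value_general (r : ℕ) (hr : 3 ≤ r) :
    r * Real.log r / (4 * ((r : ℝ) - 1)) ≤ A r ((2 : ℕ) / (1 : ℕ)) (8 / 5) /
      ((1 - 1 / (r : ℝ)) * (((2 : ℕ) : ℝ) / ((1 : ℕ) : ℝ)) ^ 2) := by
  have h := log_le_A r hr
  have hr' : (3 : ℝ) ≤ r := by exact_mod_cast hr
  have hr0 : (0 : ℝ) < r := by linarith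
  have hr1 : (0 : ℝ) < (r : ℝ) - 1 := by linarith
  have h1 : (1 - 1 / (r : ℝ)) = (r - 1) / r := by field_simp
  have h2 : A r ((2 : ℕ) / (1 : ℕ)) (8 / 5) = A r 2 (8 / 5) := by norm_num
  rw [h2, h1, Nat.cast_ofNat, Nat.cast_one, div_one]
  rw [div_le_div_iff₀ (by positivity) (by positivity)]
  have h3 : A r 2 (8 / 5) * (4 * ((r : ℝ) - 1)) - r * Real.log r * ((r - 1) / r * 2 ^ 2) =
      4 * (r - 1) * (A r 2 (8 / 5) - Real.log r) := by
    field_simp
    ring
  have h4 : 0 ≤ 4 * ((r : ℝ) - 1) * (A r 2 (8 / 5) - Real.log r) :=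
    mul_nonneg (by linarith) (by linarith)
  linarith

end Pool.Agent.H31.LB
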