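import Mathlib
import Pool.Agent.H31.LB.Complete

set_option autoImplicit false

/-!
# A numerical value: the bound for graphs that are not `39`-colourable is larger than `1`
-/

namespace Pool.Agent.H31.LB

open Finset Classical Filter
open scoped ENNReal NNReal

/-- `exp 0.3145 ≤ 1.3696` -/
theorem exp_a : Real.exp 0.3145 ≤ 1.3696 := by
  have h := Real.exp_bound' (x := 0.3145) (by norm_num) (by norm_num) (n := 6) (by norm_num)
  refine h.trans ?_
  norm_num [Finset.sum_range_succ, Nat.factorial]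

theorem log_b : (3.3145 : ℝ) ≤ Real.log (468 / 17) := by
  rw [Real.le_log_iff_exp_le (by norm_num)]
  have e1 : Real.exp 3.3145 = Real.exp 1 * Real.exp 1 * Real.exp 1 * Real.exp 0.3145 := by
    rw [← Real.exp_add, ← Real.exp_add, ← Real.exp_add]
    norm_num
  have e2 := Real.exp_one_lt_d9
  have e0 := Real.exp_pos 1
  have e3 : Real.exp 1 * Real.exp 1 ≤ 7.389057 := by nlinarith
  have e4 : Real.exp 1 * Real.exp 1 * Real.exp 1 ≤ 20.08554 := by
    calc Real.exp 1 * Real.exp 1 * Real.exp 1 ≤ 7.389057 * 2.7182818286 :=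
          mul_le_mul e3 e2.le e0.le (by norm_num)
      _ ≤ 20.08554 := by norm_num
  rw [e1]
  calc Real.exp 1 * Real.exp 1 * Real.exp 1 * Real.exp 0.3145 ≤ 20.08554 * 1.3696 :=
        mul_le_mul e4 exp_a (Real.exp_pos _).le (by norm_num)
    _ ≤ 468 / 17 := by norm_num

/-- `exp 1.2 ≤ 3.3202` -/
theorem exp_c : Real.exp (6 / 5) ≤ 3.3202 := by
  have e1 : Real.exp (6 / 5) = Real.exp 1 * Real.exp 0.2 := by
    rw [← Real.exp_add]
    norm_num
  have e2 := Real.exp_one_lt_d9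
  have e3 : Real.exp 0.2 ≤ 1.22141 := by
    have h := Real.exp_bound' (x := 0.2) (by norm_num) (by norm_num) (n := 5) (by norm_num)
    refine h.trans ?_
    norm_num [Finset.sum_range_succ, Nat.factorial]
  rw [e1]
  calc Real.exp 1 * Real.exp 0.2 ≤ 2.7182818286 * 1.22141 :=
        mul_le_mul e2.le e3 (Real.exp_pos _).le (by norm_num)
    _ ≤ 3.3202 := by norm_num

theorem log_d : Real.log (1 + 39 * (Real.exp (6 / 5) - 1)) ≤ 4.517 := by
  have h1 := exp_c
  have h2 : (1 : ℝ) ≤ Real.exp (6 / 5) := by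
    have := Real.add_one_le_exp (6 / 5 : ℝ)
    linarith
  rw [Real.log_le_iff_le_exp (by nlinarith)]
  have e1 : Real.exp 4.517 = Real.exp 1 * Real.exp 1 * (Real.exp 1 * Real.exp 1) *
      Real.exp 0.517 := by
    rw [← Real.exp_add, ← Real.exp_add, ← Real.exp_add]
    norm_num
  have e2 := Real.exp_one_gt_d9
  have e3 : (7.389056 : ℝ) ≤ Real.exp 1 * Real.exp 1 := by nlinarith
  have e4 : (54.5981 : ℝ) ≤ Real.exp 1 * Real.exp 1 * (Real.exp 1 * Real.exp 1) := by nlinarith
  have e5 : (1.6769 : ℝ) ≤ Real.exp 0.517 := by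
    have h := Real.sum_le_exp_of_nonneg (x := 0.517) (by norm_num) 6
    refine le_trans ?_ h
    norm_num [Finset.sum_range_succ, Nat.factorial]
  rw [e1]
  calc 1 + 39 * (Real.exp (6 / 5) - 1) ≤ 54.5981 * 1.6769 := by linarith
    _ ≤ _ := mul_le_mul e4 e5 (by norm_num) (by positivity)

theorem value_39 :
    (1 : ℝ) < A 39 ((17 : ℕ) / (10 : ℕ)) (6 / 5) /
      ((1 - 1 / ((39 : ℕ) : ℝ)) * (((17 : ℕ) : ℝ) / ((10 : ℕ) : ℝ)) ^ 2) := by
  have h1 := log_b
  have h2 := log_d
  rw [lt_div_iff₀ (by norm_num)]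
  unfold A
  have h3 : (((39 : ℕ) : ℝ) * (6 / 5) / (((17 : ℕ) : ℝ) / ((10 : ℕ) : ℝ))) = 468 / 17 := by
    norm_num
  rw [h3]
  push_cast
  norm_num at h1 h2 ⊢
  linarith

/-- `c(F) > 1` for all graphs `F` that are not `39`-colourable -/
theorem one_lt_c {W : Type} [Fintype W] (F : SimpleGraph W) (hF : ¬ F.Colorable 39) :
    1 < c F := by
  refine lt_of_lt_of_le ?_ (le_c_complete 39 (by norm_num) 17 10 (by norm_num) (by norm_num)
    (by norm_num) (6 / 5) (by norm_num) F hF)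
  rw [← ENNReal.ofReal_one]
  exact (ENNReal.ofReal_lt_ofReal_iff_of_nonneg zero_le_one).2 value_39

end Pool.Agent.H31.LB
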